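import Pool.Agent.Y698.SG.Inp
import Pool.Agent.Y698.SG.Az
import Pool.Agent.Y698.SG.Ty
import Pool.Agent.Y687.MQ.Abs

/-!
# The L-functions over `ℚ` of the twists of `X_0(49)`
-/

set_option autoImplicit false
set_option linter.unusedSectionVars false

namespace Q283.J2

open WeierstrassCurve Finset
open Pool.Agent.Y698
open Pool.Agent.Y698.SG (Spl Gp mat inp val_quad')
open W165.CE (pw)
open Pool.Agent.TH936.PU Pool.Agent.TH936.CM H667R3 Pool.Agent.W192.HK

/-- the L-function, with the Euler factors at all the primes -/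
theorem exists_F {Q P : Finset ℕ} (hQ : ∀ q ∈ Q, Inq q) (hP : ∀ p ∈ P, Spl p)
    (hdet : (mat Q P).det ≠ 0) :
    ∃ F : ℂ → ℂ, Differentiable ℂ F ∧ (∀ z : ℂ, 3 / 2 < z.re → HasProd (fun p : Nat.Primes =>
      EF (∏ q ∈ Q ∪ P, qch q (p : ℕ)) z p) (F z)) ∧ F 1 ≠ 0 := by
  obtain ⟨F, g1, g2, hval⟩ := val_quad' inp hQ hP hdet
  refine ⟨F, g1, g2, ?_⟩
  obtain ⟨L, Ω, h⟩ := exists_LD
  have hirrA : Irreducible aR := irr_of_prime_norm (by rw [aR_nR]; norm_num)
  have hp : (sp aR).IsPrime := (maximal_sp hirrA).isPrime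
  obtain ⟨B, hB⟩ := exists_vs (sp aR)
  have h1 := hB aR (Ideal.mem_span_singleton_self _)
  rw [aR_coe] at h1
  have h2 := hval _ B.valuation L Ω h h1
  intro h0
  rw [h0, map_zero, zero_div, map_zero, mul_zero] at h2
  exact pow_ne_zero _ ((Valuation.ne_zero_iff B.valuation).2 two_ne_zero) h2.symm

/-- the number of the points of the two models -/
lemma card_pts {p : ℕ} [Fact p.Prime] (hp2 : p ≠ 2) (hp3 : p ≠ 3) (j : ℕ) :
    Nat.card (AP (EX (ZMod p) (j : ZMod p))) = Nat.card {q : ZMod p × ZMod p //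
      q.2 ^ 2 = q.1 ^ 3 + ((-2835 * ((1 + 4 * j : ℕ) : ℤ) ^ 2 : ℤ) : ZMod p) * q.1 +
        ((-71442 * ((1 + 4 * j : ℕ) : ℤ) ^ 3 : ℤ) : ZMod p)} := by
  have hp : p.Prime := Fact.out
  have h2 : (2 : ZMod p) ≠ 0 := by
    intro h0
    have h3 : ((2 : ℕ) : ZMod p) = 0 := by exact_mod_cast h0
    rw [ZMod.natCast_eq_zero_iff] at h3
    exact hp2 ((Nat.prime_dvd_prime_iff_eq hp Nat.prime_two).1 h3)
  have h3 : (3 : ZMod p) ≠ 0 := by
    intro h0
    have h3 : ((3 : ℕ) : ZMod p) = 0 := by exact_mod_cast h0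
    rw [ZMod.natCast_eq_zero_iff] at h3
    exact hp3 ((Nat.prime_dvd_prime_iff_eq hp Nat.prime_three).1 h3)
  have h36 : (36 : ZMod p) ≠ 0 := by
    have : (36 : ZMod p) = 2 ^ 2 * 3 ^ 2 := by norm_num
    rw [this]
    exact mul_ne_zero (pow_ne_zero _ h2) (pow_ne_zero _ h3)
  have h216 : (216 : ZMod p) ≠ 0 := by
    have : (216 : ZMod p) = 2 ^ 3 * 3 ^ 3 := by norm_num
    rw [this]
    exact mul_ne_zero (pow_ne_zero _ h2) (pow_ne_zero _ h3)
  let D : ZMod p := 1 + 4 * (j : ZMod p)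
  have heq : ∀ x y : ZMod p, (EX (ZMod p) (j : ZMod p)).toAffine.Equation x y ↔
      (216 * y + 108 * x) ^ 2 = (36 * x - 9 * D) ^ 3 +
        ((-2835 * ((1 + 4 * j : ℕ) : ℤ) ^ 2 : ℤ) : ZMod p) * (36 * x - 9 * D) +
        ((-71442 * ((1 + 4 * j : ℕ) : ℤ) ^ 3 : ℤ) : ZMod p) := by
    intro x y
    rw [WeierstrassCurve.Affine.equation_iff]
    unfold EX
    simp only [D]
    push_cast
    constructor
    · intro h
      linear_combination 46656 * h
    · intro h
      have h4 : (46656 : ZMod p) ≠ 0 := by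
        have : (46656 : ZMod p) = 216 ^ 2 := by norm_num
        rw [this]
        exact pow_ne_zero _ h216
      apply mul_left_cancel₀ h4
      linear_combination h
  apply Nat.card_congr
  refine
    { toFun := fun z => ⟨(36 * z.1.1 - 9 * D, 216 * z.1.2 + 108 * z.1.1), (heq _ _).1 z.2⟩
      invFun := fun z => ⟨((z.1.1 + 9 * D) / 36, (z.1.2 - 108 * ((z.1.1 + 9 * D) / 36)) / 216), ?_⟩
      left_inv := fun z => ?_
      right_inv := fun z => ?_ }
  · rw [heq]
    have e1 : 36 * ((z.1.1 + 9 * D) / 36) - 9 * D = z.1.1 := by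
      field_simp
      ring
    have e2 : 216 * ((z.1.2 - 108 * ((z.1.1 + 9 * D) / 36)) / 216) +
        108 * ((z.1.1 + 9 * D) / 36) = z.1.2 := by
      field_simp
      ring
    show (216 * ((z.1.2 - 108 * ((z.1.1 + 9 * D) / 36)) / 216) +
        108 * ((z.1.1 + 9 * D) / 36)) ^ 2 = _
    rw [e1, e2]
    exact z.2
  · apply Subtype.ext
    apply Prod.ext
    · show (36 * z.1.1 - 9 * D + 9 * D) / 36 = z.1.1
      field_simp
      ring
    · show (216 * z.1.2 + 108 * z.1.1 - 108 * ((36 * z.1.1 - 9 * D + 9 * D) / 36)) / 216 = z.1.2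
      field_simp
      ring
  · apply Subtype.ext
    apply Prod.ext
    · show 36 * ((z.1.1 + 9 * D) / 36) - 9 * D = z.1.1
      field_simp
      ring
    · show 216 * ((z.1.2 - 108 * ((z.1.1 + 9 * D) / 36)) / 216) +
        108 * ((z.1.1 + 9 * D) / 36) = z.1.2
      field_simp
      ring

/-- the inverse of an Euler factor -/
noncomputable def fac (c : ℂ) (s : ℂ) (p : ℕ) : ℂ :=
  1 - bc p * (c * (p : ℂ) ^ (-s)) + ec p * (c * (p : ℂ) ^ (-s)) ^ 2

lemma norm_pow_lt {p : ℕ} (hp : 1 < p) {s : ℂ} (hs : 3 / 2 < s.re) {c : ℂ} (hc : ‖c‖ ≤ 1) :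
    ‖c * (p : ℂ) ^ (-s)‖ ^ 2 < ((p : ℝ) ^ 3)⁻¹ := by
  have hp0 : (0 : ℝ) < p := by positivity
  have h1 : ‖(p : ℂ) ^ (-s)‖ = (p : ℝ) ^ (-s.re) := by
    have := Complex.norm_cpow_eq_rpow_re_of_pos hp0 (-s)
    rw [Complex.neg_re] at this
    exact_mod_cast this
  have h2 : ‖c * (p : ℂ) ^ (-s)‖ ≤ (p : ℝ) ^ (-s.re) := by
    rw [norm_mul, h1]
    exact mul_le_of_le_one_left (by positivity) hc
  have h3 : ((p : ℝ) ^ (-s.re)) ^ 2 < ((p : ℝ) ^ 3)⁻¹ := by
    rw [← Real.rpow_natCast, ← Real.rpow_mul hp0.le, ← Real.rpow_natCast, ← Real.rpow_neg hp0.le]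
    apply Real.rpow_lt_rpow_of_exponent_lt (by exact_mod_cast hp)
    push_cast
    linarith
  exact lt_of_le_of_lt (pow_le_pow_left₀ (norm_nonneg _) h2 2) h3

lemma bc_three : bc 3 = 0 := by
  have hns : ¬ IsSquare (-7 : ZMod 3) := by decide
  exact (bc_inert (irr_inert Nat.prime_three hns) Nat.prime_three).1

lemma fac_two {s c : ℂ} (hs : 3 / 2 < s.re) (hc : ‖c‖ ≤ 1) : fac c s 2 ≠ 0 := by
  intro h
  unfold fac at h
  rw [bc_two] at h
  have h0 : ec 2 = 2 := by unfold ec; norm_num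
  rw [h0] at h
  set z := c * ((2 : ℕ) : ℂ) ^ (-s) with hz
  have h1 : ‖z‖ ^ 2 < (((2 : ℕ) : ℝ) ^ 3)⁻¹ := norm_pow_lt (by norm_num) hs hc
  have h2 : (1 : ℂ) = z - 2 * z ^ 2 := by linear_combination h
  have h3 : (1 : ℝ) ≤ ‖z‖ + 2 * ‖z‖ ^ 2 := by
    have h4 := congrArg norm h2
    rw [norm_one] at h4
    rw [h4]
    refine (norm_sub_le _ _).trans ?_
    have h5 : ‖2 * z ^ 2‖ = 2 * ‖z‖ ^ 2 := by
      rw [norm_mul, norm_pow]
      norm_num
    rw [h5]
  norm_num at h1
  nlinarith [norm_nonneg z, sq_nonneg (‖z‖ - 3 / 8)]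

lemma fac_three {s c : ℂ} (hs : 3 / 2 < s.re) (hc : ‖c‖ ≤ 1) : fac c s 3 ≠ 0 := by
  intro h
  unfold fac at h
  rw [bc_three] at h
  have h0 : ec 3 = 3 := by unfold ec; norm_num
  rw [h0] at h
  set z := c * ((3 : ℕ) : ℂ) ^ (-s) with hz
  have h1 : ‖z‖ ^ 2 < (((3 : ℕ) : ℝ) ^ 3)⁻¹ := norm_pow_lt (by norm_num) hs hc
  have h2 : (1 : ℂ) = -(3 * z ^ 2) := by linear_combination h
  have h3 : (1 : ℝ) ≤ 3 * ‖z‖ ^ 2 := by
    have h4 := congrArg norm h2
    rw [norm_one, norm_neg, norm_mul, norm_pow] at h4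
    rw [h4]
    norm_num
  norm_num at h1
  nlinarith [norm_nonneg z]

lemma qch_val (q : ℕ) (m : ℤ) : qch q m = 0 ∨ qch q m = 1 ∨ qch q m = -1 := by
  unfold qch
  rcases jacobiSym.trichotomy m q with h | h | h <;> rw [h] <;> simp

lemma prod_val {S : Finset ℕ} (m : ℤ) : ∏ q ∈ S, qch q m = 0 ∨ ∏ q ∈ S, qch q m = 1 ∨
    ∏ q ∈ S, qch q m = -1 := by
  classical
  induction S using Finset.induction_on with
  | empty => simp
  | insert q S hq ih =>
    rw [Finset.prod_insert hq]
    rcases qch_val q m with h | h | h <;> rcases ih with h' | h' | h' <;> rw [h, h'] <;> simp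

lemma prod_norm {S : Finset ℕ} (m : ℤ) : ‖∏ q ∈ S, qch q m‖ ≤ 1 := by
  rcases prod_val (S := S) m with h | h | h <;> rw [h] <;> simp

/-- **the L-function over `ℚ`** -/
theorem lfun49 {Q P : Finset ℕ} {j : ℕ} (hQ : ∀ q ∈ Q, Inq q) (hP : ∀ p ∈ P, Spl p)
    (hj : ∏ q ∈ Q ∪ P, q = 1 + 4 * j) (hdet : (mat Q P).det ≠ 0) :
    ∃ F : ℂ → ℂ, Pool.Agent.Y19.QT.IsLFun (-2835 * ((1 + 4 * j : ℕ) : ℤ) ^ 2)
      (-71442 * ((1 + 4 * j : ℕ) : ℤ) ^ 3) F ∧ F 1 ≠ 0 := by
  classical
  obtain ⟨F, hF, hprod, hF1⟩ := exists_F hQ hP hdet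
  set S := Q ∪ P with hS
  have hSg : ∀ q ∈ S, Gp q := by
    intro q hq
    rcases Finset.mem_union.1 hq with h | h
    · exact Gp.of_inq (hQ q h)
    · exact Gp.of_spl (hP q h)
  set χ : ℕ → ℂ := fun n => ∏ q ∈ S, qch q (n : ℤ) with hχ
  have hDZ : ((1 + 4 * j : ℕ) : ℤ) ≠ 0 := by
    rw [Nat.cast_ne_zero]
    omega
  have edisc : 2 * (-4 * (-2835 * ((1 + 4 * j : ℕ) : ℤ) ^ 2) ^ 3 -
      27 * (-71442 * ((1 + 4 * j : ℕ) : ℤ) ^ 3) ^ 2) =
      -(2 ^ 9 * 3 ^ 12 * 7 ^ 3 * ((1 + 4 * j : ℕ) : ℤ) ^ 6) := by ring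
  have hdvd : ∀ p : ℕ, p.Prime → (((p : ℤ) ∣ 2 * (-4 * (-2835 * ((1 + 4 * j : ℕ) : ℤ) ^ 2) ^ 3 -
      27 * (-71442 * ((1 + 4 * j : ℕ) : ℤ) ^ 3) ^ 2)) ↔ (p = 2 ∨ p = 3 ∨ p = 7 ∨ p ∈ S)) := by
    intro p hp
    have hpZ : Prime (p : ℤ) := Nat.prime_iff_prime_int.1 hp
    have hpd : ∀ m : ℕ, m.Prime → ∀ k : ℕ, k ≠ 0 → ((p : ℤ) ∣ (m : ℤ) ^ k ↔ p = m) := by
      intro m hm k hk
      rw [Prime.dvd_pow_iff_dvd hpZ hk]
      constructor
      · intro h
        exact (Nat.prime_dvd_prime_iff_eq hp hm).1 (by exact_mod_cast h)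
      · rintro rfl
        exact dvd_rfl
    have h1 : (p : ℤ) ∣ 2 ^ 9 ↔ p = 2 := hpd 2 Nat.prime_two 9 (by norm_num)
    have h2 : (p : ℤ) ∣ 3 ^ 12 ↔ p = 3 := hpd 3 Nat.prime_three 12 (by norm_num)
    have h3 : (p : ℤ) ∣ 7 ^ 3 ↔ p = 7 := hpd 7 (by norm_num) 3 (by norm_num)
    have h4 : (p : ℤ) ∣ ((1 + 4 * j : ℕ) : ℤ) ^ 6 ↔ p ∈ S := by
      rw [Prime.dvd_pow_iff_dvd hpZ (by norm_num), Int.natCast_dvd_natCast, ← hj,
        Prime.dvd_finsetProd_iff hp.prime]
      constructor
      · rintro ⟨q, hq, hd⟩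
        rwa [(Nat.prime_dvd_prime_iff_eq hp (hSg q hq).pr).1 hd]
      · intro h
        exact ⟨p, h, dvd_rfl⟩
    rw [edisc, dvd_neg, hpZ.dvd_mul, hpZ.dvd_mul, hpZ.dvd_mul]
    rw [h1, h2, h3, h4]
    tauto
  refine ⟨fun s => F s * (fac (χ 2) s 2 * fac (χ 3) s 3), ⟨?_, ?_⟩, ?_⟩
  · have hd : ∀ p : ℕ, 0 < p → Differentiable ℂ fun s : ℂ => (p : ℂ) ^ (-s) := by
      intro p hp s
      exact (differentiableAt_id.neg).const_cpow (Or.inl (by exact_mod_cast hp.ne'))
    have hd2 := hd 2 (by norm_num)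
    have hd3 := hd 3 (by norm_num)
    unfold fac
    exact hF.mul (((((differentiable_const _).sub ((hd2.const_mul _).const_mul _)).add
      (((hd2.const_mul _).pow 2).const_mul _))).mul ((((differentiable_const _).sub
        ((hd3.const_mul _).const_mul _)).add (((hd3.const_mul _).pow 2).const_mul _))))
  · intro s hs
    set g : ℕ → ℂ := fun n => if n.Prime then EF (χ n) s n else 1 with hg
    have hg1 : HasProd g (F s) := by
      have hinj : Function.Injective (fun p : Nat.Primes => (p : ℕ)) := Subtype.val_injective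
      rw [← hinj.hasProd_iff]
      · have h0 := hprod s hs
        have e : (g ∘ fun p : Nat.Primes => (p : ℕ)) =
            fun p : Nat.Primes => EF (∏ q ∈ S, qch q (p : ℕ)) s p := by
          funext p
          exact if_pos p.2
        rw [e]
        exact h0
      · intro x hx
        rw [hg]
        simp only
        rw [if_neg]
        intro h
        exact hx ⟨⟨x, h⟩, rfl⟩
    set h : ℕ → ℂ := fun n => if n = 2 ∨ n = 3 then fac (χ n) s n else 1 with hh
    have hh1 : HasProd h (fac (χ 2) s 2 * fac (χ 3) s 3) := by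
      have h1 : HasProd h (∏ b ∈ ({2, 3} : Finset ℕ), h b) := by
        apply hasProd_prod_of_ne_finset_one
        intro b hb
        rw [hh]
        simp only
        rw [if_neg]
        intro h2
        apply hb
        simp only [Finset.mem_insert, Finset.mem_singleton]
        exact h2
      rw [Finset.prod_pair (by norm_num)] at h1
      have e2 : h 2 = fac (χ 2) s 2 := if_pos (Or.inl rfl)
      have e3 : h 3 = fac (χ 3) s 3 := if_pos (Or.inr rfl)
      rw [e2, e3] at h1
      exact h1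
    have hgh := hg1.mul hh1
    convert hgh using 1
    funext n
    by_cases hn : n.Prime
    · have : Fact n.Prime := ⟨hn⟩
      have hgn : g n = (fac (χ n) s n)⁻¹ := if_pos hn
      by_cases h23 : n = 2 ∨ n = 3
      · have hhn : h n = fac (χ n) s n := if_pos h23
        rw [if_neg (by
          rintro ⟨-, h1⟩
          exact h1 ((hdvd n hn).2 (by tauto)))]
        rw [hgn, hhn, inv_mul_cancel₀]
        rcases h23 with rfl | rfl
        · exact fac_two hs (prod_norm _)
        · exact fac_three hs (prod_norm _)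
      · have hhn : h n = 1 := if_neg h23
        rw [hgn, hhn, mul_one]
        rw [not_or] at h23
        by_cases h7 : n = 7
        · rw [if_neg (by
            rintro ⟨-, h1⟩
            exact h1 ((hdvd n hn).2 (by tauto)))]
          have e1 : bc 7 = 0 := bc_seven 0
          have e2 : ec 7 = 0 := if_pos rfl
          rw [h7]
          unfold fac
          rw [e1, e2]
          simp
        · by_cases hnS : n ∈ S
          · rw [if_neg (by
              rintro ⟨-, h1⟩
              exact h1 ((hdvd n hn).2 (by tauto)))]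
            have e1 : χ n = 0 := by
              rw [hχ]
              refine Finset.prod_eq_zero hnS ?_
              unfold qch
              have : jacobiSym (n : ℤ) n = 0 := by
                rw [jacobiSym.eq_zero_iff_not_coprime]
                rw [Int.gcd_self]
                rw [Int.natAbs_natCast]
                exact hn.one_lt.ne'
              rw [this, Int.cast_zero]
            unfold fac
            rw [e1]
            simp
          · rw [if_pos ⟨hn, fun h1 => by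
              rcases (hdvd n hn).1 h1 with h2 | h2 | h2 | h2
              · exact h23.1 h2
              · exact h23.2 h2
              · exact h7 h2
              · exact hnS h2⟩]
            have htr := Pool.Agent.Y698.SG.trace_tw (ZMod n) hn h7 one_ne_zero
              (by rw [Nat.card_zmod, pow_one]) hSg hnS hj
            rw [card_pts h23.1 h23.2, Nat.card_zmod, pow_one] at htr
            have hpw : pw (bc n) (ec n) 1 = bc n := rfl
            rw [hpw] at htr
            push_cast at htr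
            have hsq : (χ n) ^ 2 = 1 := by
              refine qprod_sq (fun q hq => (hSg q hq).pr) fun q hq hd => ?_
              have h1 : q ∣ n := by exact_mod_cast hd
              exact hnS (((Nat.prime_dvd_prime_iff_eq (hSg q hq).pr hn).1 h1) ▸ hq)
            have hec : ec n = (n : ℂ) := if_neg h7
            unfold fac
            congr 1
            have e1 : bc n * (χ n * (n : ℂ) ^ (-s)) = (χ n * bc n) * (n : ℂ) ^ (-s) := by ring
            have hn0 : (n : ℂ) ≠ 0 := by exact_mod_cast hn.ne_zero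
            have e2 : ec n * (χ n * (n : ℂ) ^ (-s)) ^ 2 = (n : ℂ) ^ (1 - 2 * s) := by
              rw [hec, mul_pow, hsq, one_mul, sub_eq_add_neg, Complex.cpow_add _ _ hn0,
                Complex.cpow_one]
              congr 1
              rw [pow_two, ← Complex.cpow_add _ _ hn0]
              congr 1
              ring
            rw [e1, e2]
            have e3 : χ n * bc n = (n : ℂ) - (Nat.card {q : ZMod n × ZMod n //
                q.2 ^ 2 = q.1 ^ 3 + ((-2835 * ((1 + 4 * j : ℕ) : ℤ) ^ 2 : ℤ) : ZMod n) * q.1 +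
                  ((-71442 * ((1 + 4 * j : ℕ) : ℤ) ^ 3 : ℤ) : ZMod n)} : ℂ) := by
              rw [hχ]
              push_cast
              exact htr.symm
            rw [e3]
    · have hgn : g n = 1 := if_neg hn
      have hhn : h n = 1 := by
        refine if_neg ?_
        rintro (rfl | rfl)
        · exact hn Nat.prime_two
        · exact hn Nat.prime_three
      rw [hgn, hhn, mul_one, if_neg (by tauto)]
  · refine mul_ne_zero hF1 (mul_ne_zero ?_ ?_)
    · unfold fac
      rw [bc_two]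
      have h0 : ec 2 = 2 := by unfold ec; norm_num
      rw [h0]
      rcases prod_val (S := S) (2 : ℕ) with h | h | h
      · have e : χ 2 = 0 := h
        rw [e]; norm_num
      · have e : χ 2 = 1 := h
        rw [e, Complex.cpow_neg_one]; push_cast; norm_num
      · have e : χ 2 = -1 := h
        rw [e, Complex.cpow_neg_one]; push_cast; norm_num
    · unfold fac
      rw [bc_three]
      have h0 : ec 3 = 3 := by unfold ec; norm_num
      rw [h0]
      rcases prod_val (S := S) (3 : ℕ) with h | h | h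
      · have e : χ 3 = 0 := h
        rw [e]; norm_num
      · have e : χ 3 = 1 := h
        rw [e, Complex.cpow_neg_one]; push_cast; norm_num
      · have e : χ 3 = -1 := h
        rw [e, Complex.cpow_neg_one]; push_cast; norm_num

end Q283.J2
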