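import Pool.Agent.Q283.J2.Kind

/-!
# The twists of `X_0(14)` and of `X_0(49)` over multiquadratic fields
-/

set_option autoImplicit false
set_option linter.unusedSectionVars false

open scoped Classical

namespace Q283.J2

open Finset
open Pool.Agent.Y687 (DD qs DD_natAbs)
open Pool.Agent.Y687.MQ (AdmD ZB Ind)
open Pool.Agent.Y687.JQ (fD CL CL_iff DD_mul DD_ne RZS prod_symmDiff isSquare_of_mul)
open Pool.Agent.Y703.CQ (Sp nr cu Sol Gd Cl Ok c2)
open Pool.Agent.Y723.QT (Kl F2)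
open Pool.Agent.TH841.NF (EF)
open Q283.XF (nf)

/-- the square classes over the field -/
theorem exists_set {b : Bool} {m : ℤ} {n : ℕ} {d : Fin n → ℤ} (hm : ∃ V, CK b V ∧ m = DD V)
    (hd : ∀ i, ∃ (W : Finset ℕ) (k : ℤ), CK b W ∧ k ≠ 0 ∧ d i = DD W * k ^ 2)
    (T : Finset (Fin n)) :
    ∃ (S : Finset ℕ) (k : ℤ), CK b S ∧ k ≠ 0 ∧ m * ∏ i ∈ T, d i = DD S * k ^ 2 := by
  induction T using Finset.induction_on with
  | empty =>
    obtain ⟨V, hV, rfl⟩ := hm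
    exact ⟨V, 1, hV, one_ne_zero, by rw [Finset.prod_empty]; ring⟩
  | insert a T haT ih =>
    obtain ⟨S, k, hS, hk, he⟩ := ih
    obtain ⟨W, l, hW, hl, hdl⟩ := hd a
    refine ⟨symmDiff S W, DD (S ∩ W) * k * l, hS.symmDiff hW, ?_, ?_⟩
    · refine mul_ne_zero (mul_ne_zero (DD_ne fun p hp => ?_) hk) hl
      exact (hS.prime p (Finset.mem_inter.1 hp).1).ne_zero
    · rw [Finset.prod_insert haT, hdl]
      linear_combination (DD W * l ^ 2) * he + (k ^ 2 * l ^ 2) * DD_mul S W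

theorem ind_ne {n : ℕ} {d : Fin n → ℤ} (hd : Ind d) : ∀ i, d i ≠ 0 := by
  intro i h0
  refine hd {i} (Finset.singleton_nonempty i) ?_
  rw [Finset.prod_singleton, h0]
  exact ⟨0, rfl⟩

theorem root_b (b : Bool) : ∃ e : ℤ, e ^ 3 + ca b * e + cb b = 0 := by
  cases b
  · exact ⟨39, by unfold ca cb; norm_num⟩
  · exact ⟨63, by unfold ca cb; norm_num⟩

/-- **over the field** -/
theorem field_part {b : Bool} {M : ℤ} (hM : M ≠ 0) {n : ℕ} {d : Fin n → ℤ} (hd : Ind d)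
    (h : ∀ T : Finset (Fin n), ∃ (S : Finset ℕ) (k : ℤ), CK b S ∧ Gd (fk b) S ∧ k ≠ 0 ∧
      M * ∏ i ∈ T, d i = DD S * k ^ 2)
    (K : Type) [Field K] [NumberField K] (x : Fin n → K) (hx : ∀ i, x i ^ 2 = (d i : K))
    (hK : IntermediateField.adjoin ℚ (Set.range x) = ⊤) :
    ((∃ F : ℂ → ℂ, Pool.Agent.Y19.QT.IsLFunK K (ca b * M ^ 2) (cb b * M ^ 3) (∏ i, d i) F ∧
      F 1 ≠ 0) ∧ Finite (Pool.Agent.Y19.QT.EK K (ca b * M ^ 2) (cb b * M ^ 3))) ∧
    F2 (Pool.Agent.TH841.NF.D.Sha (EF (ca b * M ^ 2) (cb b * M ^ 3) K)) ∧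
      Kl (Pool.Agent.TH841.NF.D.Sha (EF (ca b * M ^ 2) (cb b * M ^ 3) K)) n := by
  have hab : 4 * (ca b * M ^ 2) ^ 3 + 27 * (cb b * M ^ 3) ^ 2 ≠ 0 := by
    have e : 4 * (ca b * M ^ 2) ^ 3 + 27 * (cb b * M ^ 3) ^ 2 =
        (4 * ca b ^ 3 + 27 * cb b ^ 2) * M ^ 6 := by ring
    rw [e]
    exact mul_ne_zero (disc_b b) (pow_ne_zero 6 hM)
  refine ⟨Pool.Agent.Y687.MQ.mq_zero hd hab (fun T => ?_) K x hx hK, ?_⟩
  · obtain ⟨S, k, hS, hG, hk, he⟩ := h T
    have h1 := Pool.Agent.Y687.MQ.ZB_scale (disc_b b) hS.ne hk (zb_DD hS hG)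
    have e1 : ca b * M ^ 2 * (∏ i ∈ T, d i) ^ 2 = ca b * (DD S * k ^ 2) ^ 2 := by
      rw [← he]; ring
    have e2 : cb b * M ^ 3 * (∏ i ∈ T, d i) ^ 3 = cb b * (DD S * k ^ 2) ^ 3 := by
      rw [← he]; ring
    rw [e1, e2]
    exact h1
  · have h3 : Kl (Pool.Agent.TH841.NF.D.Sha (EF (ca b * M ^ 2) (cb b * M ^ 3) K)) (n + 0) := by
      refine Pool.Agent.Y723.QT.base_kl (r := x) (d := fun i => (d i : ℚ)) (fun i => ?_)
        (fun i => by exact_mod_cast ind_ne hd i) hK fun T => ?_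
      · rw [hx i, map_intCast]
      · rw [Pool.Agent.TH841.NF.tw_Sh]
        obtain ⟨S, k, hS, hG, hk, he⟩ := h T
        have h4 := ((rz_sq b hS.ne hk).2 ((rz_DD hS).2 hG)).2
        rw [← he] at h4
        have e1 : (∏ i ∈ T, d i) ^ 2 * (ca b * M ^ 2) = ca b * (M * ∏ i ∈ T, d i) ^ 2 := by ring
        have e2 : (∏ i ∈ T, d i) ^ 3 * (cb b * M ^ 3) = cb b * (M * ∏ i ∈ T, d i) ^ 3 := by
          ring
        rw [e1, e2]
        exact Pool.Agent.Y687.JQ.kl_zero h4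
    rw [add_zero] at h3
    obtain ⟨e, he⟩ := root_b b
    have he' : (e * M) ^ 3 + (ca b * M ^ 2) * (e * M) + (cb b * M ^ 3) = 0 := by
      linear_combination M ^ 3 * he
    exact ⟨(Pool.Agent.Y723.QT.f2_iff (Pool.Agent.Y723.QT.tf_EF (F := K) hab he')).2 ⟨n, h3⟩, h3⟩

/-- good over the field generated by the square roots of the `d i`, for the product of the twists by
the `m i` -/
def GoodF {g n : ℕ} (b : Fin g → Bool) (m : Fin g → ℤ) (d : Fin n → ℤ) (D : ℤ) : Prop :=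
  ∀ i (T : Finset (Fin n)), RZ (b i) (m i * D * ∏ l ∈ T, d l)

/-- the class -/
def Cls (D : ℕ) : Prop := Squarefree D ∧ Cl {5} {0} D.primeFactors

theorem Cls.eq {D : ℕ} (h : Cls D) : (D : ℤ) = DD D.primeFactors := by
  rw [DD_true (CK_of_Cl h.2 true), Nat.prod_primeFactors_of_squarefree h.1]

/-- the condition for one square class -/
theorem good_iff {b : Bool} {M : ℤ} {D : ℕ} (hD : Cls D) {S : Finset ℕ} {k : ℤ} (hS : CK b S)
    (hk : k ≠ 0) (he : M = DD S * k ^ 2) :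
    RZ b (M * D) ↔ Gd (fk b) (symmDiff D.primeFactors S) := by
  have h1 : M * D = (DD D.primeFactors * DD S) * k ^ 2 := by
    rw [he, ← hD.eq]; ring
  rw [h1, rz_sq b (mul_ne_zero (CK_of_Cl hD.2 b).ne hS.ne) hk, rz_mul (CK_of_Cl hD.2 b) hS]

/-- **the proportion over the field** -/
theorem prop_field {g n : ℕ} {b : Fin g → Bool} {m : Fin g → ℤ} {d : Fin n → ℤ} (hd : Ind d)
    (hm : ∀ i, ∃ V, CK (b i) V ∧ m i = DD V)
    (hdm : ∀ i l, ∃ (W : Finset ℕ) (k : ℤ), CK (b i) W ∧ k ≠ 0 ∧ d l = DD W * k ^ 2)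
    (hiso : ∀ i j, i ≠ j → b i = b j → ∀ T : Finset (Fin n),
      ¬ IsSquare (m i * m j * ∏ l ∈ T, d l)) :
    Filter.Tendsto (fun X : ℕ => (((Icc 1 X).filter fun D : ℕ => Cls D ∧ GoodF b m d D).card : ℝ) /
      (((Icc 1 X).filter fun D : ℕ => Cls D).card : ℝ)) Filter.atTop (nhds (c2 ^ (g * 2 ^ n))) := by
  choose U k hU hk he using fun i T => exists_set (hm i) (hdm i) T
  have hcard : Fintype.card (Fin g × Finset (Fin n)) = g * 2 ^ n := by
    rw [Fintype.card_prod, Fintype.card_fin, Fintype.card_finset, Fintype.card_fin]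
  let e : Fin (g * 2 ^ n) ≃ Fin g × Finset (Fin n) := (Fintype.equivFinOfCardEq hcard).symm
  have hd0 := ind_ne hd
  have hp0 : ∀ T : Finset (Fin n), ∏ l ∈ T, d l ≠ 0 := fun T =>
    Finset.prod_ne_zero_iff.2 fun l _ => hd0 l
  have hinj : ∀ z z' : Fin g × Finset (Fin n), z ≠ z' → b z.1 = b z'.1 → U z.1 z.2 ≠ U z'.1 z'.2 := by
    rintro ⟨i, T⟩ ⟨j, T'⟩ hne hb hUU
    simp only at hb hUU
    have h1 := he i T
    have h2 := he j T'
    rw [hUU] at h1
    have hps := prod_symmDiff d T T'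
    have hsq : (m i * m j * ∏ l ∈ symmDiff T T', d l) * (∏ l ∈ T ∩ T', d l) ^ 2 =
        (DD (U j T') * k i T * k j T') ^ 2 := by
      have h3 : (m i * ∏ l ∈ T, d l) * (m j * ∏ l ∈ T', d l) =
          (DD (U j T') * k i T ^ 2) * (DD (U j T') * k j T' ^ 2) := by rw [h1, h2]
      linear_combination h3 - (m i * m j) * hps
    have hS := isSquare_of_mul (hp0 (T ∩ T')) hsq
    by_cases hij : i = j
    · subst hij
      have hTT : T ≠ T' := fun h => hne (by rw [h])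
      have hne2 : (symmDiff T T').Nonempty := by
        rw [Finset.nonempty_iff_ne_empty]
        intro h0
        have h1 : symmDiff T T' = ⊥ := h0
        rw [symmDiff_eq_bot] at h1
        exact hTT h1
      apply hd _ hne2
      obtain ⟨w, hw⟩ := hS
      obtain ⟨V, hV, hmV⟩ := hm i
      have hm0 : m i ≠ 0 := by rw [hmV]; exact hV.ne
      exact isSquare_of_mul hm0 (z := w) (by linear_combination hw)
    · exact hiso i j hij hb _ hS
  have h := prop_sets (M := g * 2 ^ n) (fun z => b (e z).1) (fun z => U (e z).1 (e z).2)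
    (fun z => hU _ _) (fun z z' hzz hb => hinj _ _ (fun h => hzz (e.injective h)) hb)
  refine h.congr fun X => ?_
  congr 2
  swap
  · congr 1
    exact Finset.filter_congr fun D _ => Iff.rfl
  congr 1
  refine Finset.filter_congr fun D _ => ?_
  refine and_congr_right fun hD => ?_
  have hcls : Cls D := hD
  unfold GoodF
  have key : ∀ i T, RZ (b i) ((D : ℤ) * DD (U i T)) ↔ RZ (b i) (m i * D * ∏ l ∈ T, d l) := by
    intro i T
    have h1 : m i * D * ∏ l ∈ T, d l = ((D : ℤ) * DD (U i T)) * (k i T) ^ 2 := by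
      linear_combination (D : ℤ) * he i T
    have hD0 : (D : ℤ) ≠ 0 := by exact_mod_cast hcls.1.ne_zero
    rw [h1, rz_sq (b i) (mul_ne_zero hD0 (hU i T).ne) (hk i T)]
  constructor
  · intro h i T
    have h1 := h (e.symm (i, T))
    rw [Equiv.apply_symm_apply] at h1
    exact (key i T).1 h1
  · intro h z
    exact (key _ _).2 (h _ _)

/-- **over the field, for the members of the family** -/
theorem good_field {g n : ℕ} {b : Fin g → Bool} {m : Fin g → ℤ} {d : Fin n → ℤ} (hd : Ind d)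
    (hm : ∀ i, ∃ V, CK (b i) V ∧ m i = DD V)
    (hdm : ∀ i l, ∃ (W : Finset ℕ) (k : ℤ), CK (b i) W ∧ k ≠ 0 ∧ d l = DD W * k ^ 2)
    {D : ℕ} (hD : Cls D) (hG : GoodF b m d D) (i : Fin g)
    (K : Type) [Field K] [NumberField K] (x : Fin n → K) (hx : ∀ i, x i ^ 2 = (d i : K))
    (hK : IntermediateField.adjoin ℚ (Set.range x) = ⊤) :
    ((∃ F : ℂ → ℂ, Pool.Agent.Y19.QT.IsLFunK K (ca (b i) * (m i * D) ^ 2)
      (cb (b i) * (m i * D) ^ 3) (∏ i, d i) F ∧ F 1 ≠ 0) ∧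
      Finite (Pool.Agent.Y19.QT.EK K (ca (b i) * (m i * D) ^ 2) (cb (b i) * (m i * D) ^ 3))) ∧
    F2 (Pool.Agent.TH841.NF.D.Sha (EF (ca (b i) * (m i * D) ^ 2) (cb (b i) * (m i * D) ^ 3) K)) ∧
      Kl (Pool.Agent.TH841.NF.D.Sha
        (EF (ca (b i) * (m i * D) ^ 2) (cb (b i) * (m i * D) ^ 3) K)) n := by
  have hM : m i * (D : ℤ) ≠ 0 := by
    obtain ⟨V, hV, h⟩ := hm i
    rw [h]
    exact mul_ne_zero hV.ne (by exact_mod_cast hD.1.ne_zero)
  refine field_part hM hd (fun T => ?_) K x hx hK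
  obtain ⟨S, k, hS, hk, he⟩ := exists_set (hm i) (hdm i) T
  have h1 := hG i T
  have h2 : m i * D * ∏ l ∈ T, d l = (m i * ∏ l ∈ T, d l) * D := by ring
  rw [h2, good_iff hD hS hk he] at h1
  refine ⟨symmDiff D.primeFactors S, DD (D.primeFactors ∩ S) * k,
    (CK_of_Cl hD.2 (b i)).symmDiff hS, h1, mul_ne_zero (DD_ne fun p hp =>
      (hS.prime p (Finset.mem_inter.1 hp).2).ne_zero) hk, ?_⟩
  rw [h2, he]
  have h3 := DD_mul D.primeFactors S
  rw [← hD.eq] at h3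
  linear_combination (k ^ 2) * h3

end Q283.J2
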