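import Pool.Agent.Q283.J2.Two

/-!
# Twists of `X_0(49)` over `ℚ`: the criterion for rank zero and `Ш[2] = 0`
-/

set_option autoImplicit false
set_option linter.unusedSectionVars false

namespace Q283.J2

open WeierstrassCurve NumberField IsDedekindDomain IntermediateField
open Pool.Agent.TH841.SH.D (Pt act Gal Coch IsCoc IsCob LocTriv cob Sha shaCoc cob_zero)
open Pool.Agent.Y698.SG.Cv (WF LocI coc T0 ns0)
open Pool.Agent.Y698 (Inq AX)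
open Pool.Agent.Y698.SG (Spl Gp mat nq n4 loc_all)

/-- a nontrivial element of `Ш[2]` from an everywhere locally trivial class -/
theorem sha_exQ {a b d : ℤ} (hb : b ≠ 0)
    (hab : a ^ 2 - 4 * b ≠ 0) (nb : ¬ IsSquare (b : ℚ)) (nab : ¬ IsSquare ((a : ℚ) ^ 2 - 4 * b))
    (hd : d ≠ 0) (n1 : ¬ IsSquare (d : ℚ)) (n2 : ¬ IsSquare ((d : ℚ) * ((a : ℚ) ^ 2 - 4 * b)))
    (hl : ∀ (p : ℕ) [Fact p.Prime], LocI ℚ_[p] a b d) (hr : LocI ℝ a b d)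
    (hf : Finite (WF ℚ a b).toAffine.Point) : ∃ x : Sha (WF ℚ a b), x ≠ 0 ∧ x + x = 0 := by
  have hc : coc ℚ hb d ∈ shaCoc (WF ℚ a b) := by
    refine ⟨(Pool.Agent.Y79.SG.t_COC ℚ a b hb d).1, fun p hp => ?_, ?_⟩
    · exact Pool.Agent.Y79.SG.Lot.t_LOT ℚ a b hb d hab hd _ (hl p)
    · exact Pool.Agent.Y79.SG.Lot.t_LOT ℚ a b hb d hab hd _ hr
  let N : AddSubgroup (shaCoc (WF ℚ a b)) := (cob (WF ℚ a b)).addSubgroupOf (shaCoc (WF ℚ a b))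
  let y : shaCoc (WF ℚ a b) := ⟨coc ℚ hb d, hc⟩
  refine ⟨(QuotientAddGroup.mk y : shaCoc (WF ℚ a b) ⧸ N), ?_, ?_⟩
  · intro h0
    have h0' : (QuotientAddGroup.mk y : shaCoc (WF ℚ a b) ⧸ N) = 0 := h0
    rw [QuotientAddGroup.eq_zero_iff, AddSubgroup.mem_addSubgroupOf] at h0'
    rcases Pool.Agent.Y945.SG.t_COB ℚ a b hb d hab hd h0' with h | h | h
    · exact n1 h
    · exact n2 h
    · rcases Pool.Agent.Y542.SGT.t_TOR ℚ a b d hb hab nb nab hf h with h | h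
      · exact n1 h
      · exact n2 h
  · have h5 : (QuotientAddGroup.mk (y + y) : shaCoc (WF ℚ a b) ⧸ N) = 0 := by
      rw [QuotientAddGroup.eq_zero_iff, AddSubgroup.mem_addSubgroupOf]
      have h6 : ((y + y : shaCoc (WF ℚ a b)) : Coch (WF ℚ a b)) = 0 :=
        (Pool.Agent.Y79.SG.t_COC ℚ a b hb d).2
      rw [h6]
      exact cob_zero _
    exact h5

/-- the product of a nonempty set of primes is not a square -/
lemma prod_ns {J : Finset ℕ} (hJ : ∀ q ∈ J, q.Prime) (hne : J.Nonempty) :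
    ¬ IsSquare ((((∏ q ∈ J, q : ℕ) : ℤ)) : ℚ) := by
  intro h
  have h1 : IsSquare ((∏ q ∈ J, q : ℕ) : ℚ) := by
    push_cast at h ⊢
    exact h
  rw [Rat.isSquare_natCast_iff] at h1
  obtain ⟨m, hm⟩ := h1
  obtain ⟨p, hp⟩ := hne
  have hpp := hJ p hp
  have h2 : p ∣ m * m := by
    rw [← hm]
    exact Finset.dvd_prod_of_mem _ hp
  have h3 : p ∣ m := by
    rcases (hpp.dvd_mul).1 h2 with h | h <;> exact h
  have h4 : p * p ∣ ∏ q ∈ J, q := by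
    rw [hm]
    exact mul_dvd_mul h3 h3
  rw [← Finset.mul_prod_erase J (fun q => q) hp] at h4
  have h5 : p ∣ ∏ q ∈ J.erase p, q := Nat.dvd_of_mul_dvd_mul_left hpp.pos h4
  rw [Prime.dvd_finsetProd_iff hpp.prime] at h5
  obtain ⟨q, hq, hpq⟩ := h5
  have h6 := (Nat.prime_dvd_prime_iff_eq hpp (hJ q (Finset.mem_of_mem_erase hq))).1 hpq
  exact (Finset.ne_of_mem_erase hq) h6.symm

section
variable {j : ℕ}

lemma nbQ (j : ℕ) : ¬ IsSquare (((112 * ((1 + 4 * j : ℕ) : ℤ) ^ 2 : ℤ) : ℚ)) := by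
  rintro ⟨s, hs⟩
  have h8 : IsSquare ((7 : ℕ) : ℚ) := by
    refine ⟨s / (4 * (1 + 4 * (j : ℚ))), ?_⟩
    have : (1 + 4 * (j : ℚ)) ≠ 0 := by positivity
    push_cast at hs ⊢
    field_simp
    linear_combination hs
  rw [Rat.isSquare_natCast_iff] at h8
  obtain ⟨m, hm⟩ := h8
  have : m ≤ 2 := by nlinarith
  interval_cases m <;> omega

lemma abQ (j : ℕ) : (((21 * ((1 + 4 * j : ℕ) : ℤ) : ℤ) : ℚ) ^ 2 -
    4 * ((112 * ((1 + 4 * j : ℕ) : ℤ) ^ 2 : ℤ) : ℚ)) < 0 := by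
  have e : (((21 * ((1 + 4 * j : ℕ) : ℤ) : ℤ) : ℚ) ^ 2 -
    4 * ((112 * ((1 + 4 * j : ℕ) : ℤ) ^ 2 : ℤ) : ℚ)) = -(7 * (1 + 4 * (j : ℚ)) ^ 2) := by
    push_cast; ring
  rw [e]
  have h9 : (0 : ℚ) < 7 * (1 + 4 * (j : ℚ)) ^ 2 := by positivity
  linarith

lemma nabQ (j : ℕ) : ¬ IsSquare (((21 * ((1 + 4 * j : ℕ) : ℤ) : ℤ) : ℚ) ^ 2 -
    4 * ((112 * ((1 + 4 * j : ℕ) : ℤ) ^ 2 : ℤ) : ℚ)) := fun h =>
  absurd h.nonneg (not_le.2 (abQ j))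

end

/-- **the converse over `ℚ`** -/
theorem convQ {Q P : Finset ℕ} {j : ℕ} (hQ : ∀ q ∈ Q, Inq q) (hP : ∀ p ∈ P, Spl p)
    (hj : ∏ q ∈ Q ∪ P, q = 1 + 4 * j)
    (hf : Finite (WF ℚ (21 * ((1 + 4 * j : ℕ) : ℤ))
      (112 * ((1 + 4 * j : ℕ) : ℤ) ^ 2)).toAffine.Point)
    (hsh : ∀ x : Sha (WF ℚ (21 * ((1 + 4 * j : ℕ) : ℤ))
      (112 * ((1 + 4 * j : ℕ) : ℤ) ^ 2)), x + x = 0 → x = 0) : (mat Q P).det ≠ 0 := by
  classical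
  intro hdet
  obtain ⟨J, hJP, hJne, h1, h2⟩ := Pool.Agent.Y21.SG.t_LIN ℕ (fun i => n4 i + ∑ q ∈ Q, nq i q) nq P
    hdet
  obtain ⟨l1, l2⟩ := loc_all hQ hP hJP h1 h2
  have hJ : ∀ q ∈ J, q.Prime := fun q hq => (hP q (hJP hq)).pr
  rw [hj] at l1 l2
  have hpos : 0 < ∏ q ∈ J, q := Finset.prod_pos fun q hq => (hJ q hq).pos
  obtain ⟨x, hx0, hx2⟩ := sha_exQ (d := ((∏ q ∈ J, q : ℕ) : ℤ)) (hb_ne j) (hab_ne j) (nbQ j)
    (nabQ j) (by rw [Nat.cast_ne_zero]; exact hpos.ne') (prod_ns hJ hJne) (by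
      intro h
      have h3 := h.nonneg
      have h4 := abQ j
      have h5 : (0 : ℚ) < (((∏ q ∈ J, q : ℕ) : ℤ) : ℚ) := by exact_mod_cast hpos
      exact absurd h3 (not_le.2 (mul_neg_of_pos_of_neg h5 h4))) l1 l2 hf
  exact hx0 (hsh x hx2)

/-- **the criterion over `ℚ`** -/
theorem critQ {Q P : Finset ℕ} {j : ℕ} (hQ : ∀ q ∈ Q, Inq q) (hP : ∀ p ∈ P, Spl p)
    (hj : ∏ q ∈ Q ∪ P, q = 1 + 4 * j) :
    (mat Q P).det ≠ 0 ↔ (Finite (WF ℚ (21 * ((1 + 4 * j : ℕ) : ℤ))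
      (112 * ((1 + 4 * j : ℕ) : ℤ) ^ 2)).toAffine.Point ∧
      ∀ x : Sha (WF ℚ (21 * ((1 + 4 * j : ℕ) : ℤ))
        (112 * ((1 + 4 * j : ℕ) : ℤ) ^ 2)), x + x = 0 → x = 0) :=
  ⟨fun h => fwdQ hQ hP hj h, fun h => convQ hQ hP hj h.1 h.2⟩

end Q283.J2
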