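import Pool.Agent.Y687.JQ.Stm

/-!
# Joint law for several functions on the diagonal

As project JQ (`Pool.Agent.Y687.JQ.Stm`), with a function on the diagonal which depends on the member of
the family: for curves which are not isogenous.
-/

set_option autoImplicit false
set_option linter.unusedVariables false

open scoped Classical

namespace Q283.J2

open Finset
open Pool.Agent.Y703.CX (sm la jj XX eL zz kk S_SIE)
open Pool.Agent.Y703.CQ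
open Pool.Agent.Y687.JQ (GdM)

/-- jointly good -/
def GdF {M : ℕ} (f : Fin M → ℕ → ZMod 2) (U : Fin M → Finset ℕ) (S : Finset ℕ) : Prop :=
  ∀ k, Gd (f k) (symmDiff S (U k))

/-- the function which separates two members of the family -/
noncomputable def sep {M : ℕ} (f : Fin M → ℕ → ZMod 2) (U : Fin M → Finset ℕ) (k l : Fin M)
    (p : ℕ) : ZMod 2 := ∑ u ∈ symmDiff (U k) (U l), nr p u + f k p + f l p

/-- the masks -/
def OkF {M : ℕ} (W : Finset ℕ) (U : Fin M → Finset ℕ) : Prop :=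
  (∀ u ∈ W, u.Prime ∧ u ≠ 2 ∧ u ≠ 7) ∧ ∀ k, U k ⊆ W

/-- the labels of the large primes `S₁` with respect to the small ones `S₀` and to `W` are not
degenerate, and they separate the members of the family -/
def NdF {M : ℕ} (R : ℕ) (W : Finset ℕ) (f : Fin M → ℕ → ZMod 2) (U : Fin M → Finset ℕ)
    (S₀ S₁ : Finset ℕ) : Prop :=
  Nd (S₀ ∪ W) S₁ ∧ 2 * (S₀ ∪ W).card + R ≤ (S₁.filter fun p => p % 8 = 1).card ∧
    ∀ k l, k ≠ l → 2 * (S₀ ∪ W).card + R ≤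
      (S₁.filter fun p => p % 8 = 1 ∧ sep f U k l p ≠ 0).card

/-- a lower bound of Mertens type for the split primes on which `w` is not zero -/
def HM (w : ℕ → ZMod 2) : Prop := ∃ C : ℝ, ∀ y : ℕ, 3 ≤ y →
  1 / 17 * Real.log (Real.log y) - C ≤
    ∑ p ∈ (range (y + 1)).filter (fun p => Sp p ∧ w p ≠ 0), (1 : ℝ) / p

/-- FINAL: the proportion of the jointly good sets -/
def S_FDQ : Prop := ∀ (I K : Finset ℕ) (M : ℕ) (f : Fin M → ℕ → ZMod 2) (W : Finset ℕ)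
  (U : Fin M → Finset ℕ), Ok I K → OkF W U → (∀ k l, k ≠ l → HM (sep f U k l)) → Filter.Tendsto
    (fun X : ℕ => (((SS I K X).filter (GdF f U)).card : ℝ) / ((SS I K X).card : ℝ))
    Filter.atTop (nhds (c2 ^ M))

/-- FINAL, in terms of the numbers `D`. -/
def S_FDEN : Prop := ∀ (I K : Finset ℕ) (M : ℕ) (f : Fin M → ℕ → ZMod 2) (W : Finset ℕ)
  (U : Fin M → Finset ℕ), Ok I K → OkF W U → (∀ k l, k ≠ l → HM (sep f U k l)) → Filter.Tendsto
  (fun X : ℕ => (((Icc 1 X).filter fun D => Squarefree D ∧ Cl I K D.primeFactors ∧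
      GdF f U D.primeFactors).card : ℝ) /
    (((Icc 1 X).filter fun D => Squarefree D ∧ Cl I K D.primeFactors).card : ℝ))
  Filter.atTop (nhds (c2 ^ M))

/-- LA: the probability that a random symmetric completion is good for all the members. -/
def S_FLA : Prop := ∀ (M : ℕ) (ε : ℝ), 0 < ε → ∃ R : ℕ, ∀ (U J : Type) [Fintype U] [Fintype J]
  [LinearOrder J] (U1 : Finset U) (J1 : Finset J), (∃ l, l ∉ J1) → ∀ (m : Fin M → Finset U)
  (A : U → U → ZMod 2) (B : U → J → ZMod 2) (C : J → U → ZMod 2) (f : Fin M → U → ZMod 2)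
  (g : Fin M → J → ZMod 2),
  (∀ u ∈ U1, ∀ v ∈ U1, A u v = A v u) → (∀ u ∈ U1, ∀ k ∈ J1, B u k = C k u) →
  (∀ w : U → ZMod 2, (∀ u, u ∉ U1 → w u = 0) → (∃ u, w u ≠ 0) → ∃ k ∈ J1, ∑ u, w u * C k u ≠ 0) →
  2 * U1.card + R ≤ J1.card →
  (∀ i j, i ≠ j → 2 * U1.card + R ≤
    (J1.filter fun k => ∑ u ∈ m i, C k u + ∑ u ∈ m j, C k u + g i k + g j k ≠ 0).card) →
  |((univ.filter fun α : prs J1 → ZMod 2 =>
      ∀ i, GdM (m i) U1 J1 A B C (ext α) (f i) (g i)).card : ℝ) /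
      2 ^ (prs J1).card - c2 ^ M| ≤ ε

/-- BOX: the count in a box. -/
def S_FBOX : Prop := S_EQ → S_FLA → ∀ (M : ℕ) (ε : ℝ), 0 < ε → ∃ R : ℕ,
  ∀ (f : Fin M → ℕ → ZMod 2)
  (ι : Type) [Fintype ι] [LinearOrder ι] (J1 : Finset ι) (C : ι → Finset ℕ) (X : ι → ℕ) (κ : ℝ)
  (S₀ W : Finset ℕ) (U : Fin M → Finset ℕ), (∀ k, U k ⊆ W) → 0 ≤ κ →
  (∀ i, (C i).card ≤ X i) → HB J1 C X κ → (∀ u ∈ S₀ ∪ W, u.Prime ∧ u ≠ 2) →
  (∀ i, ∀ p ∈ C i, p.Prime ∧ p ≠ 2 ∧ p ∉ S₀ ∪ W ∧ (i ∈ J1 ↔ p % 8 = 1)) →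
  (∀ i l, i ≠ l → Disjoint (C i) (C l)) → (∃ i, i ∉ J1) →
  |(((Fintype.piFinset C).filter fun p => NdF R W f U S₀ (univ.image p) ∧
      GdF f U (S₀ ∪ univ.image p)).card : ℝ) -
      c2 ^ M * (((Fintype.piFinset C).filter fun p => NdF R W f U S₀ (univ.image p)).card : ℝ)| ≤
    ε * (((Fintype.piFinset C).filter fun p => NdF R W f U S₀ (univ.image p)).card : ℝ) +
    2 ^ ((2 * (S₀ ∪ W).card + M) * Fintype.card ι + (prs J1).card) * (κ * ∏ j, (X j : ℝ))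

/-- KEY: the sum over the boxes. -/
def S_FKEY : Prop := S_BIL → S_EQ → S_FLA → S_FBOX → ∀ (M : ℕ) (ε : ℝ), 0 < ε →
  ∃ (R : ℕ) (C : ℝ), 1 ≤ C ∧
  ∀ (I K : Finset ℕ) (f : Fin M → ℕ → ZMod 2) (X z H k V N : ℕ) (κ : ℝ) (W : Finset ℕ)
  (U : Fin M → Finset ℕ), OkF W U → (∀ u ∈ W, u ≤ z) → W.card ≤ k → M ≤ k →
  Ok I K → 1 ≤ X → 1 ≤ H → 1 ≤ z → 0 ≤ κ → C ≤ κ ^ 12 * z → (H : ℝ) * Real.log X < N →
  |(((RR I K X z H k V).filter fun S => NdF R W f U (sm z S) (la z S) ∧ GdF f U S).card : ℝ) -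
      c2 ^ M * (((RR I K X z H k V).filter fun S => NdF R W f U (sm z S) (la z S)).card : ℝ)| ≤
    ε * ((RR I K X z H k V).card : ℝ) +
    (9 * N + 9 : ℝ) ^ k * (3 ^ (6 * k ^ 2) * κ) * (X * (1 + Real.log X))

/-- FEW: few sets have few large split primes on which `w` is not zero. -/
def S_FFEW : Prop := S_SIE → S_MER → ∀ (I K : Finset ℕ) (w : ℕ → ZMod 2) (R : ℕ), Ok I K →
  HM w → ∃ (δ C : ℝ) (X₀ : ℕ), 0 < δ ∧ ∀ X : ℕ, X₀ ≤ X →
  (((SS I K X).filter fun S => ((la (zz X) S).filter fun p => p % 8 = 1 ∧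
      w p ≠ 0).card < 2 * (sm (zz X) S).card + R).card : ℝ) ≤
    C * X * (Real.log X) ^ (-1 + dl I - δ : ℝ)

end Q283.J2
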