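import Pool.Agent.Q283.J2.LA
import Pool.Agent.Q283.J2.BOX
import Pool.Agent.Q283.J2.KEY
import Pool.Agent.Q283.J2.FEW
import Pool.Agent.Q283.J2.ASY
import Pool.Agent.Y703.CQ.Fin
import Pool.Agent.Y697.JQ.BAD
import Pool.Agent.Y514.CQ.NS

/-!
# Joint law for several functions on the diagonal

The analysis, the sieve and the estimates for the degenerate labels are those of projects CQ and JQ
(see `Pool.Agent.Y703.CQ.Fin`, `Pool.Agent.Y687.JQ.Fin`).
-/

set_option autoImplicit false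

open scoped Classical

namespace Q283.J2

open Finset Pool.Agent.Y703.CQ

theorem t_FDQ_all : S_FDQ :=
  t_FDQ Pool.Agent.Y710.CQ.t_BIL Pool.Agent.Y356.CQ.t_EQ t_FLA
    t_FBOX KC.t_FKEY Pool.Agent.Y391.CQ.t_CNT
    Pool.Agent.Y488.CX.t_SIE Pool.Agent.Y475.CQ.t_HAL Pool.Agent.Y697.JQ.t_JBAD
    Pool.Agent.Y362.CQ.t_FEW FE.t_FFEW
    Pool.Agent.Y405.CQ.t_MER Pool.Agent.Y302.CQ.t_CHE Pool.Agent.Y302.CQ.t_LOW
    Pool.Agent.Y948.CQ.t_C2

theorem t_FDEN : S_FDEN := by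
  intro I K M f W U hOk hW hH
  refine (t_FDQ_all I K M f W U hOk hW hH).congr fun X => ?_
  have e1 := Pool.Agent.Y514.CQ.card_eq I K X (GdF f U)
  have e2 := Pool.Agent.Y514.CQ.card_eq I K X (fun _ => True)
  rw [Finset.filter_true] at e2
  simp only [and_true] at e2
  rw [← e1, ← e2]

end Q283.J2
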