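import Pool.Agent.Q283.J2.Half
import Pool.Agent.Q283.J2.Stm
import Pool.Agent.Q283.TW.MatD
import Pool.Agent.Y405.JQ.MER
import Pool.Agent.Y703.CQ.Fin
import Pool.Agent.Y687.JQ.Fld

/-!
# The lower bounds of Mertens type
-/

set_option autoImplicit false
set_option linter.style.haveILetI false
set_option linter.unusedSectionVars false

open scoped Classical

namespace Q283.J2

open Filter Topology Finset
open Pool.Agent.Y703.CQ (Sp In nr Gd Cl S_MER)
open Pool.Agent.Y687.JQ (fD)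
open Q283.XF (nf)
open Q283.TW (Spl xp1 nrp)

/-- partial summation -/
theorem abel_low (a : ℕ → ℝ) (h0 : a 0 = 0) {C : ℝ}
    (h : ∀ n, -C ≤ ∑ m ∈ range (n + 1), a m) {y : ℕ} (hy : 1 ≤ y) :
    -C ≤ ∑ m ∈ range (y + 1), a m / m := by
  have key : ∀ n : ℕ, (∑ m ∈ range (n + 2), a m) / ((n : ℝ) + 1) - C * (1 - 1 / ((n : ℝ) + 1)) ≤
      ∑ m ∈ range (n + 2), a m / m := by
    intro n
    induction n with
    | zero =>
      simp [Finset.sum_range_succ, h0]
    | succ n ih =>
      rw [Finset.sum_range_succ (fun m => a m / (m : ℝ)) (n + 2), Finset.sum_range_succ a (n + 2)]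
      have h1 := h (n + 1)
      set S := ∑ m ∈ range (n + 2), a m with hS
      set T := ∑ m ∈ range (n + 2), a m / (m : ℝ) with hT
      have hn1 : (0 : ℝ) < (n : ℝ) + 1 := by positivity
      have hn2 : (0 : ℝ) < (n : ℝ) + 1 + 1 := by positivity
      have e1 : ((n + 1 : ℕ) : ℝ) + 1 = (n : ℝ) + 1 + 1 := by push_cast; ring
      have e2 : ((n + 2 : ℕ) : ℝ) = (n : ℝ) + 1 + 1 := by push_cast; ring
      rw [e1, e2]
      have h2 : 0 ≤ (S + C) * (1 / ((n : ℝ) + 1) - 1 / ((n : ℝ) + 1 + 1)) := by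
        apply mul_nonneg (by linarith)
        rw [sub_nonneg]
        exact one_div_le_one_div_of_le hn1 (by linarith)
      have h3 : (S + a (n + 2)) / ((n : ℝ) + 1 + 1) - C * (1 - 1 / ((n : ℝ) + 1 + 1)) =
          (S / ((n : ℝ) + 1) - C * (1 - 1 / ((n : ℝ) + 1))) + a (n + 2) / ((n : ℝ) + 1 + 1) -
            (S + C) * (1 / ((n : ℝ) + 1) - 1 / ((n : ℝ) + 1 + 1)) := by
        field_simp
        ring
      rw [h3]
      linarith
  obtain ⟨n, rfl⟩ : ∃ n, y = n + 1 := ⟨y - 1, by omega⟩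
  have h1 := key n
  have h2 := h (n + 1)
  have hn1 : (0 : ℝ) < (n : ℝ) + 1 := by positivity
  have h3 : -C / ((n : ℝ) + 1) ≤ (∑ m ∈ range (n + 2), a m) / ((n : ℝ) + 1) :=
    div_le_div_of_nonneg_right h2 hn1.le
  have h4 : -C / ((n : ℝ) + 1) - C * (1 - 1 / ((n : ℝ) + 1)) = -C := by
    field_simp
    ring
  have h5 : -C ≤ ∑ m ∈ range (n + 2), a m / m := by linarith
  exact h5

/-- the reciprocals of the split primes, from below -/
theorem mer_low (hm : S_MER) : ∃ C : ℝ, ∀ y : ℕ, 3 ≤ y →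
    1 / 8 * Real.log (Real.log y) - C ≤ ∑ p ∈ (range (y + 1)).filter Sp, (1 : ℝ) / p := by
  obtain ⟨C1, h1⟩ := hm 1 (by norm_num)
  obtain ⟨C2, h2⟩ := hm 9 (by norm_num)
  obtain ⟨C3, h3⟩ := hm 25 (by norm_num)
  refine ⟨C1 + C2 + C3, fun y hy => ?_⟩
  have k1 := (abs_le.1 (h1 y hy)).1
  have k2 := (abs_le.1 (h2 y hy)).1
  have k3 := (abs_le.1 (h3 y hy)).1
  have e : (range (y + 1)).filter Sp = ((range (y + 1)).filter (fun p => p.Prime ∧ p % 56 = 1 % 56) ∪
      (range (y + 1)).filter (fun p => p.Prime ∧ p % 56 = 9 % 56)) ∪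
      (range (y + 1)).filter (fun p => p.Prime ∧ p % 56 = 25 % 56) := by
    ext p
    simp only [mem_filter, mem_union]
    constructor
    · rintro ⟨a, b, c, d⟩
      have : p % 56 = 1 ∨ p % 56 = 9 ∨ p % 56 = 25 := by omega
      rcases this with h | h | h
      · exact Or.inl (Or.inl ⟨a, b, h⟩)
      · exact Or.inl (Or.inr ⟨a, b, h⟩)
      · exact Or.inr ⟨a, b, h⟩
    · rintro ((⟨a, b, c⟩ | ⟨a, b, c⟩) | ⟨a, b, c⟩)
      · exact ⟨a, b, by omega, by omega⟩
      · exact ⟨a, b, by omega, by omega⟩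
      · exact ⟨a, b, by omega, by omega⟩
  rw [e, Finset.sum_union, Finset.sum_union]
  · linarith
  · rw [Finset.disjoint_left]
    intro p hp hp'
    rw [mem_filter] at hp hp'
    omega
  · rw [Finset.disjoint_left]
    intro p hp hp'
    rw [mem_union, mem_filter, mem_filter] at hp
    rw [mem_filter] at hp'
    rcases hp with hp | hp
    · omega
    · omega

/-- from the natural density to the reciprocals -/
theorem hm_of_half (hm : S_MER) {w : ℕ → ZMod 2}
    (h : Tendsto (fun X : ℕ => (((range (X + 1)).filter fun p => Spl p ∧ w p ≠ 0).card : ℝ) /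
      (((range (X + 1)).filter fun p => Spl p).card : ℝ)) atTop (𝓝 (1 / 2))) : HM w := by
  obtain ⟨C1, hC1⟩ := mer_low hm
  -- eventually
  have hev : ∀ᶠ X : ℕ in atTop, (8 / 17 : ℝ) <
      (((range (X + 1)).filter fun p => Spl p ∧ w p ≠ 0).card : ℝ) /
      (((range (X + 1)).filter fun p => Spl p).card : ℝ) :=
    h.eventually (lt_mem_nhds (by norm_num))
  rw [eventually_atTop] at hev
  obtain ⟨N, hN⟩ := hev
  set a : ℕ → ℝ := fun p => (if Sp p ∧ w p ≠ 0 then (1 : ℝ) else 0) - 8 / 17 *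
    (if Sp p then (1 : ℝ) else 0) with ha
  have hsum : ∀ n, ∑ m ∈ range (n + 1), a m =
      (((range (n + 1)).filter fun p => Sp p ∧ w p ≠ 0).card : ℝ) - 8 / 17 *
      (((range (n + 1)).filter fun p => Sp p).card : ℝ) := by
    intro n
    rw [ha, Finset.sum_sub_distrib, ← Finset.mul_sum, Finset.sum_boole, Finset.sum_boole]
  have hlow : ∀ n, -((N : ℝ) + 1) ≤ ∑ m ∈ range (n + 1), a m := by
    intro n
    rw [hsum]
    by_cases hn : N ≤ n
    · have h1 := hN n hn
      have h2 : (8 / 17 : ℝ) * (((range (n + 1)).filter fun p => Sp p).card : ℝ) ≤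
          (((range (n + 1)).filter fun p => Sp p ∧ w p ≠ 0).card : ℝ) := by
        rcases (Nat.eq_zero_or_pos ((range (n + 1)).filter fun p => Sp p).card) with h3 | h3
        · rw [h3]
          push_cast
          rw [mul_zero]
          positivity
        · have h4 : (0 : ℝ) < (((range (n + 1)).filter fun p => Sp p).card : ℝ) := by
            exact_mod_cast h3
          have h5 := (lt_div_iff₀ h4).1 h1
          exact h5.le
      have : (0 : ℝ) ≤ N := Nat.cast_nonneg _
      linarith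
    · have h1 : (((range (n + 1)).filter fun p => Sp p).card : ℝ) ≤ n + 1 := by
        have := Finset.card_filter_le (range (n + 1)) (fun p => Sp p)
        rw [Finset.card_range] at this
        exact_mod_cast this
      have h2 : (n : ℝ) ≤ N := by
        have : n ≤ N := by omega
        exact_mod_cast this
      have h3 : (0 : ℝ) ≤ (((range (n + 1)).filter fun p => Sp p ∧ w p ≠ 0).card : ℝ) := by
        positivity
      have h4 : (0 : ℝ) ≤ n := Nat.cast_nonneg _
      linarith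
  refine ⟨8 / 17 * C1 + ((N : ℝ) + 1), fun y hy => ?_⟩
  have ha0 : a 0 = 0 := by
    have h0 : ¬ Sp 0 := fun h => Nat.not_prime_zero h.1
    rw [ha]
    simp [h0]
  have hab := abel_low a ha0 (C := (N : ℝ) + 1) hlow (y := y) (by omega)
  have hs2 : ∑ m ∈ range (y + 1), a m / m =
      ∑ p ∈ (range (y + 1)).filter (fun p => Sp p ∧ w p ≠ 0), (1 : ℝ) / p -
      8 / 17 * ∑ p ∈ (range (y + 1)).filter Sp, (1 : ℝ) / p := by
    rw [Finset.sum_filter, Finset.sum_filter, Finset.mul_sum, ← Finset.sum_sub_distrib]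
    refine Finset.sum_congr rfl fun m _ => ?_
    rw [ha]
    simp only
    split_ifs <;> ring
  rw [hs2] at hab
  have h1 := hC1 y hy
  linarith

/-- `x (p)` is the function on the diagonal for `X_0(14)` -/
theorem fD_eq {p : ℕ} (hp : Spl p) : fD p = xp1 p := (Q283.TW.xp1_eq hp).symm

theorem nr_eq (p r : ℕ) : nr p r = nrp p r := by
  unfold Pool.Agent.Y703.CQ.nr Q283.TW.nrp
  split_ifs <;> rfl

/-- **two different curves** -/
theorem hm_mixed {e : Finset ℕ} (he : ∀ r ∈ e, r.Prime ∧ r ≠ 2 ∧ r ≠ 7) :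
    HM fun p => ∑ r ∈ e, nr p r + fD p + nf p := by
  refine hm_of_half Pool.Agent.Y405.CQ.t_MER ?_
  refine (half e he).congr fun X => ?_
  congr 2
  congr 1
  refine Finset.filter_congr fun p _ => ?_
  refine and_congr_right fun hp => ?_
  rw [fD_eq hp, Finset.sum_congr rfl fun r _ => nr_eq p r]

/-- **the same curve** -/
theorem hm_same {e : Finset ℕ} (hne : e.Nonempty) (he : ∀ r ∈ e, r.Prime ∧ r ≠ 2 ∧ r ≠ 7) :
    HM fun p => ∑ r ∈ e, nr p r := by
  obtain ⟨C, hC⟩ := Pool.Agent.Y405.JQ.t_JMER e hne he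
  refine ⟨C, fun y hy => ?_⟩
  have h1 := (abs_le.1 (hC y hy)).1
  have hll : 0 ≤ Real.log (Real.log y) := by
    apply Real.log_nonneg
    rw [Real.le_log_iff_exp_le (by positivity)]
    have h3 : (3 : ℝ) ≤ y := by exact_mod_cast hy
    have := Real.exp_one_lt_d9
    linarith
  have h2 : ∑ p ∈ (range (y + 1)).filter (fun p => Sp p ∧ p ∉ e ∧ ∑ u ∈ e, nr p u ≠ 0),
      (1 : ℝ) / p ≤ ∑ p ∈ (range (y + 1)).filter (fun p => Sp p ∧ ∑ u ∈ e, nr p u ≠ 0),
      (1 : ℝ) / p := by
    refine Finset.sum_le_sum_of_subset_of_nonneg ?_ fun p _ _ => by positivity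
    intro p hp
    rw [mem_filter] at hp ⊢
    exact ⟨hp.1, hp.2.1, hp.2.2.2⟩
  linarith

end Q283.J2
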