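import Pool.Agent.Q283.J2.Mat49
import Pool.Agent.Q283.J2.Mer
import Pool.Agent.Q283.J2.Fin

/-!
# The twists of `X_0(14)` and of `X_0(49)` together
-/

set_option autoImplicit false
set_option linter.unusedSectionVars false

open scoped Classical

namespace Q283.J2

open Finset
open Pool.Agent.Y687 (DD qs DD_natAbs)
open Pool.Agent.Y687.MQ (AdmD ZB Ind)
open Pool.Agent.Y687.JQ (fD CL CL_iff DD_mul DD_ne RZS)
open Pool.Agent.Y703.CQ (Sp nr cu Sol Gd Cl Ok c2)
open Q283.XF (nf)

/-- the coefficients of the two curves: `false` for `X_0(14)`, `true` for `X_0(49)` -/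
def ca (b : Bool) : ℤ := if b then -2835 else 5805

/-- the coefficients of the two curves -/
def cb (b : Bool) : ℤ := if b then -71442 else -285714

/-- finite Mordell-Weil group and no element of order two in the Tate-Shafarevich group -/
def RZ (b : Bool) (D : ℤ) : Prop :=
  Finite (Pool.Agent.Z702.sh (ca b * D ^ 2) (cb b * D ^ 3)).toAffine.Point ∧
    ∀ x : Pool.Agent.TH841.SH.D.Sha (Pool.Agent.Z702.sh (ca b * D ^ 2) (cb b * D ^ 3)),
      x + x = 0 → x = 0

/-- the sets of primes of the twists -/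
def CK : Bool → Finset ℕ → Prop
  | false, S => CL S
  | true, S => ∀ p ∈ S, Sp p ∨ In5 p

/-- the function on the diagonal -/
noncomputable def fk : Bool → ℕ → ZMod 2
  | false => fD
  | true => nf

theorem CK.prime {b : Bool} {S : Finset ℕ} (h : CK b S) : ∀ p ∈ S, p.Prime := by
  cases b
  · exact CL.prime h
  · intro p hp
    rcases h p hp with h1 | h1
    · exact h1.1
    · exact h1.1

theorem CK.symmDiff {b : Bool} {S T : Finset ℕ} (hS : CK b S) (hT : CK b T) :
    CK b (symmDiff S T) := by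
  cases b
  · exact CL.symmDiff hS hT
  · intro p hp
    rcases Finset.mem_symmDiff.1 hp with h | h
    · exact hS p h.1
    · exact hT p h.1

theorem CK.ne27 {b : Bool} {S : Finset ℕ} (h : CK b S) : ∀ p ∈ S, p.Prime ∧ p ≠ 2 ∧ p ≠ 7 := by
  intro p hp
  refine ⟨h.prime p hp, ?_, ?_⟩
  · rintro rfl
    cases b
    · rcases (CL_iff.1 h).1 2 hp with h1 | h1
      · exact absurd h1.2.1 (by norm_num)
      · have := h1.2.2.1
        norm_num at this
    · rcases h 2 hp with h1 | h1
      · exact absurd h1.2.1 (by norm_num)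
      · exact absurd h1.2.1 (by norm_num)
  · rintro rfl
    cases b
    · rcases (CL_iff.1 h).1 7 hp with h1 | h1
      · exact absurd h1.2.1 (by norm_num)
      · have := h1.2.2.1
        norm_num at this
    · rcases h 7 hp with h1 | h1
      · exact absurd h1.2.1 (by norm_num)
      · exact absurd h1.2.1 (by norm_num)

theorem CK.ne {b : Bool} {S : Finset ℕ} (h : CK b S) : DD S ≠ 0 :=
  DD_ne fun p hp => (h.prime p hp).ne_zero

/-- for the second curve the discriminants are positive -/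
theorem DD_true {S : Finset ℕ} (h : CK true S) : DD S = ((∏ p ∈ S, p : ℕ) : ℤ) := by
  unfold DD
  push_cast
  refine Finset.prod_congr rfl fun p hp => ?_
  unfold qs
  rw [if_pos]
  rcases h p hp with h1 | h1
  · have := h1.2.1; omega
  · have := h1.2.1; omega

/-- the sets of the class of `D` -/
theorem CK_of_Cl {S : Finset ℕ} (h : Cl {5} {0} S) (b : Bool) : CK b S := by
  obtain ⟨h1, h2, -⟩ := h
  cases b
  · refine CL_iff.2 ⟨fun p hp => ?_, h2⟩
    rcases h1 p hp with h3 | ⟨k1, k2, k3, k4⟩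
    · exact Or.inl h3
    · exact Or.inr ⟨k2, k1, Or.inr (Finset.mem_singleton.1 k3), k4⟩
  · intro p hp
    rcases h1 p hp with h3 | ⟨k1, k2, k3, k4⟩
    · exact Or.inl h3
    · exact Or.inr ⟨k1, Finset.mem_singleton.1 k3, k4⟩

/-- **the criterion for the two curves** -/
theorem rz_DD {b : Bool} {S : Finset ℕ} (h : CK b S) : RZ b (DD S) ↔ Gd (fk b) S := by
  cases b
  · have h1 : RZ false (DD S) ↔ RZS (DD S) := Iff.rfl
    rw [h1, Pool.Agent.Y687.JQ.rzs_iff (CL.adm h), Pool.Agent.Y687.JQ.det_iff, CL.natAbs h]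
    rfl
  · have h1 : RZ true (DD S) ↔ RZ49 (DD S) := Iff.rfl
    rw [h1, DD_true h, rz49_iff h]
    rfl

theorem deltaK (b : Bool) (D : ℤ) : (Pool.Agent.Z702.sh (ca b * D ^ 2) (cb b * D ^ 3)).Δ =
    -16 * (4 * (ca b : ℚ) ^ 3 + 27 * (cb b : ℚ) ^ 2) * (D : ℚ) ^ 6 := by
  simp only [Pool.Agent.Z702.sh, WeierstrassCurve.Δ, WeierstrassCurve.b₂, WeierstrassCurve.b₄,
    WeierstrassCurve.b₆, WeierstrassCurve.b₈]
  push_cast
  ring

theorem disc_b (b : Bool) : (4 * ca b ^ 3 + 27 * cb b ^ 2 : ℤ) ≠ 0 := by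
  cases b <;> unfold ca cb <;> norm_num

theorem deltaK_ne (b : Bool) {D : ℤ} (hD : D ≠ 0) :
    (Pool.Agent.Z702.sh (ca b * D ^ 2) (cb b * D ^ 3)).Δ ≠ 0 := by
  rw [deltaK]
  refine mul_ne_zero (mul_ne_zero (by norm_num) ?_) (pow_ne_zero 6 (by exact_mod_cast hD))
  have := disc_b b
  exact_mod_cast this

/-- the twists by numbers in the same square class -/
theorem rz_sq (b : Bool) {D k : ℤ} (hD : D ≠ 0) (hk : k ≠ 0) : RZ b (D * k ^ 2) ↔ RZ b D := by
  unfold RZ
  have e1 : ca b * (D * k ^ 2) ^ 2 = k ^ 4 * (ca b * D ^ 2) := by ring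
  have e2 : cb b * (D * k ^ 2) ^ 3 = k ^ 6 * (cb b * D ^ 3) := by ring
  rw [e1, e2]
  obtain ⟨h1, h2, -⟩ := Pool.Agent.Z702.f_TRN _ _ _ _ _ _
    (Pool.Agent.Y687.JQ.vr_sq (ca b * D ^ 2) (cb b * D ^ 3) hk) (deltaK_ne b hD)
  rw [h1, h2]

/-- the product of two sets of the class -/
theorem rz_mul {b : Bool} {S T : Finset ℕ} (hS : CK b S) (hT : CK b T) :
    RZ b (DD S * DD T) ↔ Gd (fk b) (symmDiff S T) := by
  rw [DD_mul, rz_sq b (hS.symmDiff hT).ne, rz_DD (hS.symmDiff hT)]
  exact DD_ne fun p hp => (hS.prime p (Finset.mem_inter.1 hp).1).ne_zero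

/-- the L-function and the points -/
theorem zb_DD {b : Bool} {S : Finset ℕ} (h : CK b S) (hG : Gd (fk b) S) :
    ZB (ca b * DD S ^ 2) (cb b * DD S ^ 3) := by
  cases b
  · exact Pool.Agent.Y687.MQ.ZB_of_WB (Pool.Agent.Y687.MQ.WB_D (CL.adm h) (by
      rw [Pool.Agent.Y687.JQ.det_iff, CL.natAbs h]
      exact hG))
  · have hdet := (det49 S).2 hG
    have hm4 := Pool.Agent.Y698.prod_mod_four (S := QS S ∪ PS S) fun q hq => by
      rw [union_QP] at hq
      rcases h q hq with h | h
      · have := h.2.1; omega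
      · have := h.2.1; omega
    obtain ⟨j, hj⟩ : ∃ j, ∏ q ∈ QS S ∪ PS S, q = 1 + 4 * j :=
      ⟨(∏ q ∈ QS S ∪ PS S, q) / 4, by omega⟩
    obtain ⟨F, hF, hF1⟩ := lfun49 (QS_inq h) (PS_spl h) hj hdet
    have e : DD S = ((1 + 4 * j : ℕ) : ℤ) := by
      rw [DD_true h, ← hj, union_QP]
    rw [e]
    refine ⟨⟨F, hF, ?_⟩, ?_⟩
    · rw [(hF.1.analyticAt 1).analyticOrderAt_eq_zero]
      exact hF1
    · refine finite_set (deltaK_ne true (by rw [Nat.cast_ne_zero]; omega)) ?_
      rw [← e]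
      exact ((rz_DD h).2 hG).1

/-- **the proportion, in terms of the sets of primes** -/
theorem prop_sets {M : ℕ} (b : Fin M → Bool) (U : Fin M → Finset ℕ) (hU : ∀ k, CK (b k) (U k))
    (hinj : ∀ k l, k ≠ l → b k = b l → U k ≠ U l) :
    Filter.Tendsto (fun X : ℕ => (((Icc 1 X).filter fun D : ℕ => (Squarefree D ∧
        Cl {5} {0} D.primeFactors) ∧ ∀ k, RZ (b k) ((D : ℤ) * DD (U k))).card : ℝ) /
      (((Icc 1 X).filter fun D : ℕ => Squarefree D ∧ Cl {5} {0} D.primeFactors).card : ℝ))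
      Filter.atTop (nhds (c2 ^ M)) := by
  have hW : OkF (univ.biUnion U) U := by
    refine ⟨fun u hu => ?_, fun k => Finset.subset_biUnion_of_mem U (Finset.mem_univ k)⟩
    obtain ⟨k, -, hk⟩ := Finset.mem_biUnion.1 hu
    exact (hU k).ne27 u hk
  have hHM : ∀ k l, k ≠ l → HM (sep (fun k => fk (b k)) U k l) := by
    intro k l hkl
    have he : ∀ r ∈ symmDiff (U k) (U l), r.Prime ∧ r ≠ 2 ∧ r ≠ 7 := by
      intro r hr
      rcases Finset.mem_symmDiff.1 hr with h | h
      · exact (hU k).ne27 r h.1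
      · exact (hU l).ne27 r h.1
    have hsame : b k = b l → HM (sep (fun k => fk (b k)) U k l) := by
      intro hb
      have e : sep (fun k => fk (b k)) U k l = fun p => ∑ r ∈ symmDiff (U k) (U l), nr p r := by
        funext p
        unfold sep
        simp only [hb]
        rw [add_assoc, CharTwo.add_self_eq_zero, add_zero]
      rw [e]
      refine hm_same ?_ he
      rw [Finset.nonempty_iff_ne_empty]
      intro h0
      have h1 : symmDiff (U k) (U l) = ⊥ := h0
      rw [symmDiff_eq_bot] at h1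
      exact hinj k l hkl hb h1
    cases hk : b k <;> cases hl : b l
    · exact hsame (by rw [hk, hl])
    · have e : sep (fun k => fk (b k)) U k l =
          fun p => ∑ r ∈ symmDiff (U k) (U l), nr p r + fD p + nf p := by
        funext p
        unfold sep
        simp only [hk, hl]
        rfl
      rw [e]
      exact hm_mixed he
    · have e : sep (fun k => fk (b k)) U k l =
          fun p => ∑ r ∈ symmDiff (U k) (U l), nr p r + fD p + nf p := by
        funext p
        unfold sep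
        simp only [hk, hl]
        show ∑ r ∈ symmDiff (U k) (U l), nr p r + nf p + fD p = _
        ring
      rw [e]
      exact hm_mixed he
    · exact hsame (by rw [hk, hl])
  have h := t_FDEN {5} {0} M (fun k => fk (b k)) (univ.biUnion U) U
    ⟨Or.inl rfl, Or.inl (Finset.mem_singleton_self 0)⟩ hW hHM
  refine h.congr fun X => ?_
  congr 2
  congr 1
  refine Finset.filter_congr fun D hD => ?_
  have key : Squarefree D ∧ Cl {5} {0} D.primeFactors →
      (GdF (fun k => fk (b k)) U D.primeFactors ↔ ∀ k, RZ (b k) ((D : ℤ) * DD (U k))) := by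
    rintro ⟨h1, h2⟩
    unfold GdF
    refine forall_congr' fun k => ?_
    have hS := CK_of_Cl h2 (b k)
    have e : (D : ℤ) = DD D.primeFactors := by
      rw [DD_true (CK_of_Cl h2 true), Nat.prod_primeFactors_of_squarefree h1]
    rw [e, rz_mul hS (hU k)]
  constructor
  · rintro ⟨h1, h2, h3⟩
    exact ⟨⟨h1, h2⟩, (key ⟨h1, h2⟩).1 h3⟩
  · rintro ⟨⟨h1, h2⟩, h3⟩
    exact ⟨h1, h2, (key ⟨h1, h2⟩).2 h3⟩

end Q283.J2
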