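import Pool.Agent.Q283.J2.Quad
import Pool.Agent.Y306.SG.Tors

/-!
# Descent of the vanishing of `Ш[2]` from quadratic fields to `ℚ`

An element of order two of the Tate-Shafarevich group over `ℚ` which dies over the quadratic field
`K = ℚ(√d)` is the class of `χ_d T`, if the Mordell-Weil group over `K` has order twice an odd number.
-/

set_option autoImplicit false
set_option linter.unusedSectionVars false

attribute [-instance] DivisionRing.toRatAlgebra

namespace Q283.J2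

open WeierstrassCurve NumberField IsDedekindDomain
open Pool.Agent.TH841.NF (Sc Qb aG Fx cQ cF tm tm_some tm_zero tm_inj act_some' act_zero' pt_ext tr
  tr_cob sc_any sc_any' cQ_fx cF_cQ tr_cQ act_act act_id e_cF)
open Pool.Agent.TH841.SH.D (Pt act Gal Coch IsCoc IsCob LocTriv cob)
open Pool.Agent.Y682 (rs rsC rsS tr_rs)
open Pool.Agent.Y698.SG.Cv (WF LocI coc T0 ns0)

section

variable {K : Type} [Field K] [NumberField K] [Algebra ℚ K]

lemma sc_WF (K : Type) [Field K] [Algebra ℚ K] (a b : ℤ) :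
    Sc (algebraMap ℚ K) 1 (WF ℚ a b) (WF K a b) := by
  have key : ∀ n : ℤ, ((n : ℤ) : K) = algebraMap ℚ K (n : ℚ) := fun n => by
    rw [map_intCast]
  refine ⟨one_ne_zero, ?_, ?_, ?_, ?_, ?_⟩
  · show (0 : K) = algebraMap ℚ K 0 * 1
    rw [map_zero, zero_mul]
  · show ((a : ℤ) : K) = algebraMap ℚ K (a : ℚ) * 1 ^ 2
    rw [key, one_pow, mul_one]
  · show (0 : K) = algebraMap ℚ K 0 * 1 ^ 3
    rw [map_zero, zero_mul]
  · show ((b : ℤ) : K) = algebraMap ℚ K (b : ℚ) * 1 ^ 4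
    rw [key, one_pow, mul_one]
  · show (0 : K) = algebraMap ℚ K 0 * 1 ^ 6
    rw [map_zero, zero_mul]

/-- the elements of the algebraic closure of `ℚ` fixed by the automorphisms over `K` -/
lemma fixed_elt (e : AlgebraicClosure K ≃+* Qb) (x : Qb) (h : ∀ g : Gal ℚ, Fx e g → g x = x) :
    ∃ y : K, e (algebraMap K (AlgebraicClosure K) y) = x := by
  have h1 : e.symm x ∈ (⊥ : IntermediateField K (AlgebraicClosure K)) := by
    rw [InfiniteGalois.mem_bot_iff_fixed]
    intro σ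
    apply e.injective
    have h2 := h (cQ e σ) (cQ_fx e σ)
    rw [RingEquiv.apply_symm_apply]
    exact h2
  rw [IntermediateField.mem_bot] at h1
  obtain ⟨y, hy⟩ := h1
  exact ⟨y, by rw [hy, RingEquiv.apply_symm_apply]⟩

/-- the subgroup of the automorphisms over `K` -/
def HFx (e : AlgebraicClosure K ≃+* Qb) : Subgroup (Gal ℚ) where
  carrier := {g | Fx e g}
  mul_mem' := fun {x y} hx hy z => by
    change x (y _) = _
    rw [hy z, hx z]
  one_mem' := fun z => rfl
  inv_mem' := fun {x} hx z => by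
    have h1 := hx z
    have h2 : x⁻¹ (x (e (algebraMap K (AlgebraicClosure K) z))) =
        e (algebraMap K (AlgebraicClosure K) z) := by
      change (x⁻¹ * x) _ = _
      rw [inv_mul_cancel]
      rfl
    rw [h1] at h2
    exact h2

lemma mem_HFx (e : AlgebraicClosure K ≃+* Qb) (g : Gal ℚ) : g ∈ HFx e ↔ Fx e g := Iff.rfl

variable {ρ : K} {d : ℤ}

lemma fx_iff (e : AlgebraicClosure K ≃+* Qb)
    (hgen : ∀ x : K, ∃ u v : ℚ, x = algebraMap ℚ K u + algebraMap ℚ K v * ρ) (g : Gal ℚ) :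
    Fx e g ↔ g (e (algebraMap K _ ρ)) = e (algebraMap K _ ρ) := by
  constructor
  · intro h
    exact h ρ
  · intro h x
    obtain ⟨u, v, rfl⟩ := hgen x
    have key : ∀ q : ℚ, e (algebraMap K (AlgebraicClosure K) (algebraMap ℚ K q)) =
        algebraMap ℚ Qb q := fun q =>
      DFunLike.congr_fun (Subsingleton.elim (((e : AlgebraicClosure K →+* Qb).comp
        (algebraMap K (AlgebraicClosure K))).comp (algebraMap ℚ K)) (algebraMap ℚ Qb)) q
    rw [map_add, map_mul, map_add, map_mul, key, key, map_add, map_mul, h, AlgEquiv.commutes,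
      AlgEquiv.commutes]

lemma rho_sq (e : AlgebraicClosure K ≃+* Qb) (hρ : ρ ^ 2 = (d : K)) :
    e (algebraMap K (AlgebraicClosure K) ρ) ^ 2 = (d : Qb) := by
  rw [← map_pow, ← map_pow, hρ, map_intCast, map_intCast]

lemma rho_pm (e : AlgebraicClosure K ≃+* Qb) (hρ : ρ ^ 2 = (d : K)) (g : Gal ℚ) :
    g (e (algebraMap K _ ρ)) = e (algebraMap K _ ρ) ∨
      g (e (algebraMap K _ ρ)) = -e (algebraMap K _ ρ) := by
  apply sq_eq_sq_iff_eq_or_eq_neg.1
  rw [← map_pow, rho_sq e hρ, map_intCast]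

lemma off (e : AlgebraicClosure K ≃+* Qb) (hρ : ρ ^ 2 = (d : K))
    (hgen : ∀ x : K, ∃ u v : ℚ, x = algebraMap ℚ K u + algebraMap ℚ K v * ρ) (g g' : Gal ℚ)
    (h : g ∉ HFx e) (h' : g' ∉ HFx e) : g * g' ∈ HFx e := by
  rw [mem_HFx, fx_iff e hgen] at h h' ⊢
  have h1 := (rho_pm e hρ g).resolve_left h
  have h2 := (rho_pm e hρ g').resolve_left h'
  change g (g' _) = _
  rw [h2, map_neg, h1, neg_neg]

/-- the values of `χ_d T` -/
lemma coc_on {a b : ℤ} (hb : b ≠ 0) (e : AlgebraicClosure K ≃+* Qb) (hρ : ρ ^ 2 = (d : K))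
    (hgen : ∀ x : K, ∃ u v : ℚ, x = algebraMap ℚ K u + algebraMap ℚ K v * ρ) (g : Gal ℚ) :
    (g ∈ HFx e → coc ℚ (a := a) hb d g = 0) ∧ (g ∉ HFx e → coc ℚ (a := a) hb d g = T0 ℚ hb Qb) := by
  constructor
  · intro h
    rw [mem_HFx, fx_iff e hgen] at h
    refine if_neg ?_
    rintro ⟨s, hs, hsg⟩
    apply hsg
    rw [← rho_sq e hρ] at hs
    rcases sq_eq_sq_iff_eq_or_eq_neg.1 hs with rfl | rfl
    · exact h
    · rw [map_neg, h]
  · intro h
    rw [mem_HFx, fx_iff e hgen] at h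
    exact if_pos ⟨_, rho_sq e hρ, h⟩

/-- the points over the algebraic closure fixed by the automorphisms over `K` come from `K` -/
lemma fixed_pt {a b : ℤ} (e : AlgebraicClosure K ≃+* Qb)
    (S : Sc ((e : AlgebraicClosure K →+* Qb).comp (algebraMap K (AlgebraicClosure K))) 1
      ((WF K a b).baseChange K) ((WF ℚ a b).baseChange Qb)) (Q : Pt (WF ℚ a b) Qb)
    (h : ∀ g ∈ HFx e, aG (WF ℚ a b) g Q = Q) : ∃ P : Pt (WF K a b) K, tm S P = Q := by
  rcases Q with _ | ⟨x, y, hxy⟩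
  · exact ⟨0, rfl⟩
  · have h1 : ∀ g : Gal ℚ, Fx e g → g x = x ∧ g y = y := by
      intro g hg
      have h2 := h g hg
      have h3 : @Eq (Pt (WF ℚ a b) Qb) (Affine.Point.some (g x) (g y)
        ((Affine.baseChange_nonsingular (WF ℚ a b) (f := g.toAlgHom)
          g.toAlgHom.injective x y).mpr hxy)) (Affine.Point.some x y hxy) := h2
      exact Pool.Agent.TH841.NF.pt_inj _ _ h3
    obtain ⟨x', hx'⟩ := fixed_elt e x fun g hg => (h1 g hg).1
    obtain ⟨y', hy'⟩ := fixed_elt e y fun g hg => (h1 g hg).2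
    have h4 : ((WF K a b).baseChange K).toAffine.Nonsingular x' y' := by
      rw [← Pool.Agent.TH841.NF.ns_iff S]
      simp only [one_pow, mul_one]
      change ((WF ℚ a b).baseChange Qb).toAffine.Nonsingular (e (algebraMap K _ x'))
        (e (algebraMap K _ y'))
      rw [hx', hy']
      exact hxy
    refine ⟨Affine.Point.some x' y' h4, ?_⟩
    rw [tm_some]
    refine pt_ext _ _ ?_ ?_
    · rw [one_pow, mul_one]; exact hx'
    · rw [one_pow, mul_one]; exact hy'

open Classical in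
/-- **descent of `Ш[2]`** -/
theorem descend {a b : ℤ} (hb : b ≠ 0) (hab : a ^ 2 - 4 * b ≠ 0) (nb : ¬ IsSquare (b : K))
    (nab : ¬ IsSquare ((a : K) ^ 2 - 4 * b)) (hρ : ρ ^ 2 = (d : K))
    (hgen : ∀ x : K, ∃ u v : ℚ, x = algebraMap ℚ K u + algebraMap ℚ K v * ρ)
    (hf : Finite (WF K a b).toAffine.Point)
    (hs : ∀ x : Pool.Agent.TH841.NF.D.Sha (WF K a b), x + x = 0 → x = 0)
    {f : Coch (WF ℚ a b)} (hf1 : Pool.Agent.TH841.SH.D.IsShaCoc (WF ℚ a b) f)
    (hf2 : IsCob (WF ℚ a b) (f + f)) :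
    IsCob (WF ℚ a b) f ∨ IsCob (WF ℚ a b) (f - coc ℚ hb d) := by
  obtain ⟨e⟩ := Pool.Agent.Y723.QT.exists_e K
  have hW := sc_WF K a b
  -- the restriction is a coboundary
  have h1 : IsCob (WF K a b) (rs hW e f) := by
    let N : AddSubgroup (Pool.Agent.TH841.NF.D.shaCoc (WF K a b)) :=
      (cob (WF K a b)).addSubgroupOf (Pool.Agent.TH841.NF.D.shaCoc (WF K a b))
    let y : Pool.Agent.TH841.NF.D.shaCoc (WF K a b) := ⟨rs hW e f, Pool.Agent.Y682.rs_sha hW e hf1⟩
    have h2 : (QuotientAddGroup.mk (y + y) :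
        Pool.Agent.TH841.NF.D.shaCoc (WF K a b) ⧸ N) = 0 := by
      rw [QuotientAddGroup.eq_zero_iff, AddSubgroup.mem_addSubgroupOf]
      have h3 : ((y + y : Pool.Agent.TH841.NF.D.shaCoc (WF K a b)) : Coch (WF K a b)) =
          rs hW e (f + f) := (Pool.Agent.Y682.rs_add hW e f f).symm
      rw [h3]
      exact Pool.Agent.Y682.rs_cob hW e hf2
    have h4 : (QuotientAddGroup.mk y : Pool.Agent.TH841.NF.D.shaCoc (WF K a b) ⧸ N) = 0 :=
      hs (QuotientAddGroup.mk y : Pool.Agent.TH841.NF.D.shaCoc (WF K a b) ⧸ N) h2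
    rw [QuotientAddGroup.eq_zero_iff, AddSubgroup.mem_addSubgroupOf] at h4
    exact h4
  obtain ⟨P, hP⟩ := h1
  have h2 : ∀ g ∈ HFx e, f g = aG (WF ℚ a b) g
      (tm (sc_any hW (e : AlgebraicClosure K →+* Qb)) P) -
      tm (sc_any hW (e : AlgebraicClosure K →+* Qb)) P := by
    intro g hg
    rw [← tr_rs hW e f hg]
    exact tr_cob hW e hP hg
  have S : Sc ((e : AlgebraicClosure K →+* Qb).comp (algebraMap K (AlgebraicClosure K))) 1
      ((WF K a b).baseChange K) ((WF ℚ a b).baseChange Qb) := sc_any hW _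
  -- the order of the group over `K`
  obtain ⟨k, hk, hc⟩ := Pool.Agent.Y306.SG.t_TORS K a b hb hab nb nab
  have hcard : Nat.card (Pt (WF K a b) K) = 2 * k := by
    rw [← hc]
    have h3 : AddCommGroup.torsion (WF K a b).toAffine.Point = ⊤ := by
      rw [eq_top_iff]
      intro x _
      exact isOfFinAddOrder_of_finite x
    rw [h3]
    exact (Nat.card_congr (AddSubgroup.topEquiv (G := (WF K a b).toAffine.Point)).toEquiv).symm
  have hT0 : T0 K (a := a) hb K ≠ 0 := Affine.Point.some_ne_zero _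
  have hST : tm S (T0 K (a := a) hb K) = T0 ℚ hb Qb := by
    unfold T0
    rw [tm_some]
    refine pt_ext _ _ ?_ ?_
    · rw [map_zero, zero_mul]
    · rw [map_zero, zero_mul]
  have hTT : T0 ℚ (a := a) hb Qb + T0 ℚ hb Qb = 0 := by
    refine Affine.Point.add_self_of_Y_eq ?_
    rw [Affine.negY]
    change (0 : Qb) = -0 - algebraMap ℚ Qb 0 * 0 - algebraMap ℚ Qb 0
    rw [map_zero, neg_zero, zero_mul, sub_zero, sub_zero]
  have hTK : T0 K (a := a) hb K + T0 K hb K = 0 := by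
    apply tm_inj S
    rw [map_add, hST, hTT, map_zero]
  have hA : ∀ Q : Pt (WF ℚ a b) Qb, (∀ g ∈ HFx e, aG (WF ℚ a b) g Q = Q) →
      ∃ n : ℤ, Q = n • Q + n • Q ∨ Q = n • Q + n • Q + T0 ℚ hb Qb := by
    intro Q hQ
    obtain ⟨Q', rfl⟩ := fixed_pt e S Q hQ
    obtain ⟨n, hn⟩ := two_odd hk hcard hT0 hTK Q'
    refine ⟨n, ?_⟩
    rcases hn with hn | hn
    · left
      have := congrArg (tm S) hn
      rw [map_add, map_zsmul] at this
      exact this
    · right
      have := congrArg (tm S) hn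
      rw [map_add, map_add, map_zsmul, hST] at this
      exact this
  obtain ⟨R, hR⟩ := quad_class (aG (WF ℚ a b)) (HFx e) (off e hρ hgen) f
    (fun x y => hf1.1.2 x y) h2 (T0 ℚ hb Qb) hA
  rcases hR with hR | ⟨hR1, hR2⟩
  · left
    exact ⟨R, hR⟩
  · right
    refine ⟨R, fun g => ?_⟩
    change f g - coc ℚ hb d g = _
    by_cases hg : g ∈ HFx e
    · rw [(coc_on hb e hρ hgen g).1 hg, sub_zero]
      exact hR1 g hg
    · rw [(coc_on hb e hρ hgen g).2 hg, hR2 g hg]
      exact add_sub_cancel_right _ _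

end

/-- the sum of two of the cocycles -/
lemma coc_sub {a b : ℤ} (hb : b ≠ 0) (d d' : ℤ) (hd : d ≠ 0) (hd' : d' ≠ 0) :
    coc ℚ (a := a) hb d - coc ℚ hb d' = coc ℚ hb (d * d') := by
  classical
  have hTT : T0 ℚ (a := a) hb Qb + T0 ℚ hb Qb = 0 := by
    refine Affine.Point.add_self_of_Y_eq ?_
    rw [Affine.negY]
    change (0 : Qb) = -0 - algebraMap ℚ Qb 0 * 0 - algebraMap ℚ Qb 0
    rw [map_zero, neg_zero, zero_mul, sub_zero, sub_zero]
  obtain ⟨s, hs⟩ : ∃ s : Qb, s ^ 2 = (d : Qb) := IsAlgClosed.exists_pow_nat_eq _ two_pos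
  obtain ⟨s', hs'⟩ : ∃ s : Qb, s ^ 2 = (d' : Qb) := IsAlgClosed.exists_pow_nat_eq _ two_pos
  have hs0 : s ≠ 0 := by
    rintro rfl
    rw [zero_pow two_ne_zero] at hs
    exact hd (by exact_mod_cast hs.symm)
  have hs0' : s' ≠ 0 := by
    rintro rfl
    rw [zero_pow two_ne_zero] at hs'
    exact hd' (by exact_mod_cast hs'.symm)
  -- the value of a cocycle
  have key : ∀ (e : ℤ) (t : Qb), t ^ 2 = (e : Qb) → ∀ g : Gal ℚ,
      coc ℚ (a := a) hb e g = if g t = t then 0 else T0 ℚ hb Qb := by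
    intro e t ht g
    unfold coc
    by_cases h : g t = t
    · rw [if_pos h]
      refine if_neg ?_
      rintro ⟨x, hx, hxg⟩
      apply hxg
      rw [← ht] at hx
      rcases sq_eq_sq_iff_eq_or_eq_neg.1 hx with rfl | rfl
      · exact h
      · rw [map_neg, h]
    · rw [if_neg h]
      exact if_pos ⟨t, ht, h⟩
  funext g
  change coc ℚ hb d g - coc ℚ hb d' g = _
  rw [key d s hs, key d' s' hs', key (d * d') (s * s') (by rw [mul_pow, hs, hs']; push_cast; rfl)]
  have pm : ∀ (e : ℤ) (t : Qb), t ^ 2 = (e : Qb) → g t = t ∨ g t = -t := fun e t ht => by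
    apply sq_eq_sq_iff_eq_or_eq_neg.1
    rw [← map_pow, ht, map_intCast]
  have nn : ∀ t : Qb, t ≠ 0 → -t ≠ t := fun t ht h => by
    have h2 : 2 * t = 0 := by linear_combination -h
    exact (mul_ne_zero two_ne_zero ht) h2
  rcases pm d s hs with h1 | h1 <;> rcases pm d' s' hs' with h2 | h2
  · rw [if_pos h1, if_pos h2, if_pos (by rw [map_mul, h1, h2]), sub_zero]
  · rw [if_pos h1, if_neg (by rw [h2]; exact nn _ hs0'),
      if_neg (by rw [map_mul, h1, h2, mul_neg]; exact nn _ (mul_ne_zero hs0 hs0')), zero_sub]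
    exact neg_eq_of_add_eq_zero_right hTT
  · rw [if_neg (by rw [h1]; exact nn _ hs0), if_pos h2,
      if_neg (by rw [map_mul, h1, h2, neg_mul]; exact nn _ (mul_ne_zero hs0 hs0')), sub_zero]
  · rw [if_neg (by rw [h1]; exact nn _ hs0), if_neg (by rw [h2]; exact nn _ hs0'),
      if_pos (by rw [map_mul, h1, h2, neg_mul_neg]), sub_self]

end Q283.J2
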