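import Pool.Agent.Q283.TW.Main
import Pool.Agent.Q283.XF.Hom

/-!
# Independence of the symbols of `X_0(14)` and of `X_0(49)` at the split primes

`xp1 p = 0` iff eight divides the number of the points of `X_0(14)` modulo `p`; `nf p = 0` iff `-7` is a
fourth power modulo `p`. The sum of the two and of any quadratic symbols is not zero for half of the
primes which split completely in `ℚ(i, √2, √-7)`.
-/

set_option autoImplicit false
set_option linter.style.haveILetI false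
set_option linter.unusedSectionVars false

namespace Q283.J2

open NumberField Filter Topology Finset Pool.Agent.W401.Cheb Polynomial
open Pool.Agent.Y700 (Rt)
open Q283.TW (gen_split_rat gal_sqrt frob_sqrt ng ng_mul nrp xp1 ne_zero_of good_of_large Spl
  neg7_iff spl_iff)
open Q283.XF (nf)

/-- a Galois extension with given square roots, a root of `X ^ 4 - X ^ 2 + 2` and a fourth root
of `-7` -/
theorem exists_field2 (T : Finset ℤ) : ∃ (L : Type) (_ : Field L) (_ : NumberField L)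
    (_ : IsGalois ℚ L) (s : ℤ → L) (θ η : L), θ ^ 4 - θ ^ 2 + 2 = 0 ∧ η ^ 4 = -7 ∧
      ∀ a ∈ T, (s a) ^ 2 = (a : L) := by
  classical
  set h : ℚ[X] := X ^ 4 - X ^ 2 + 2 with hh
  set k : ℚ[X] := X ^ 4 + 7 with hk
  set q : ℤ → ℚ[X] := fun a => X ^ 2 - C (a : ℚ) with hq
  set f : ℚ[X] := h * k * ∏ a ∈ T, q a with hf
  have hhd : h.natDegree = 4 := by rw [hh]; compute_degree!
  have hkd : k.natDegree = 4 := by rw [hk]; compute_degree!
  have hqd : ∀ a, (q a).natDegree = 2 := by intro a; rw [hq]; exact natDegree_X_pow_sub_C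
  have hh0 : h ≠ 0 := by intro h0; rw [h0] at hhd; simp at hhd
  have hk0 : k ≠ 0 := by intro h0; rw [h0] at hkd; simp at hkd
  have hq0 : ∀ a, q a ≠ 0 := by intro a h0; have := hqd a; rw [h0] at this; simp at this
  have hf0 : f ≠ 0 := mul_ne_zero (mul_ne_zero hh0 hk0)
    (Finset.prod_ne_zero_iff.2 fun a _ => hq0 a)
  obtain ⟨L, hL, hN, hG, hsp⟩ := gen_split_rat f
  have hfm : f.map (algebraMap ℚ L) ≠ 0 := by
    rwa [Ne, Polynomial.map_eq_zero]
  have key : ∀ g : ℚ[X], g ∣ f → g.natDegree ≠ 0 →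
      ∃ x : L, (g.map (algebraMap ℚ L)).eval x = 0 := by
    intro g hg hd
    have h1 := hsp.of_dvd hfm (Polynomial.map_dvd _ hg)
    refine h1.exists_eval_eq_zero ?_
    rw [Polynomial.degree_map]
    intro h2
    exact hd (natDegree_eq_of_degree_eq_some h2)
  obtain ⟨θ, hθ⟩ := key h ((Dvd.intro k rfl).trans (Dvd.intro _ rfl)) (by rw [hhd]; norm_num)
  obtain ⟨η, hη⟩ := key k ((Dvd.intro_left h rfl).trans (Dvd.intro _ rfl)) (by rw [hkd]; norm_num)
  have hs : ∀ a : ℤ, ∃ x : L, a ∈ T → x ^ 2 = (a : L) := by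
    intro a
    by_cases ha : a ∈ T
    · obtain ⟨x, hx⟩ := key (q a) ((Finset.dvd_prod_of_mem q ha).mul_left _)
        (by rw [hqd]; norm_num)
      refine ⟨x, fun _ => ?_⟩
      rw [hq] at hx
      simp at hx
      linear_combination hx
    · exact ⟨0, fun h => absurd h ha⟩
  choose s hs' using hs
  refine ⟨L, hL, hN, hG, s, θ, η, ?_, ?_, fun a ha => hs' a ha⟩
  · rw [hh] at hθ
    simp at hθ
    exact hθ
  · rw [hk] at hη
    simp at hη
    linear_combination hη

/-- a large prime, `1` modulo `8`, for which `-7` is not a square -/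
theorem exists_prime_17 (B : ℕ) : ∃ p, B < p ∧ p.Prime ∧ p % 56 = 17 := by
  obtain ⟨p, hpB, hp, hpk⟩ := Nat.forall_exists_prime_gt_and_modEq B (q := 56) (a := 17)
    (by norm_num) (by norm_num)
  refine ⟨p, hpB, hp, ?_⟩
  unfold Nat.ModEq at hpk
  omega

section
variable {L : Type} [Field L] [NumberField L] [IsGalois ℚ L] {R : Finset ℕ} (E : Q283.TW.Dat L R)
  (hR : ∀ r ∈ R, r.Prime ∧ r ≠ 2 ∧ r ≠ 7) {η : L} (hη : η ^ 4 = -7)

include hη in
theorem eta_sq {g : Gal(L/ℚ)} (hg : g ∈ E.G0) : g (η ^ 2) = η ^ 2 := by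
  have h1 : (η ^ 2) ^ 2 = (E.s (-7)) ^ 2 := by
    rw [E.h7, ← pow_mul]; push_cast; exact hη
  rcases sq_eq_sq_iff_eq_or_eq_neg.1 h1 with h | h
  · rw [h, (E.mem_G0.1 hg).2.2]
  · rw [h, map_neg, (E.mem_G0.1 hg).2.2]

include hη in
theorem eta_pm {g : Gal(L/ℚ)} (hg : g ∈ E.G0) : g η = η ∨ g η = -η :=
  Q283.XF.gal_theta g (eta_sq E hη hg)

/-- the sum of the symbols -/
noncomputable def wg (η : L) (g : Gal(L/ℚ)) : ZMod 2 := E.dg g + ng g η

/-- the sum of the symbols is a homomorphism -/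
noncomputable def wH : E.G0 →* Multiplicative (ZMod 2) where
  toFun g := Multiplicative.ofAdd (wg E η g.1)
  map_one' := by
    have h : ∀ x : L, ng (1 : Gal(L/ℚ)) x = 0 := fun x => by unfold ng; simp
    rw [← ofAdd_zero]
    congr 1
    unfold wg Q283.TW.Dat.dg
    simp [h]
  map_mul' g h := by
    rw [← ofAdd_add]
    congr 1
    have hr : ∀ r ∈ R, ng (g.1 * h.1) (E.s (r : ℤ)) = ng g.1 (E.s (r : ℤ)) + ng h.1 (E.s (r : ℤ)) :=
      fun r hr => ng_mul _ _ (E.s0 hR hr) (gal_sqrt g.1 (E.hr r hr)) (gal_sqrt h.1 (E.hr r hr))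
    show wg E η (g.1 * h.1) = wg E η g.1 + wg E η h.1
    unfold wg Q283.TW.Dat.dg
    rw [Finset.sum_congr rfl hr, Finset.sum_add_distrib,
      ng_mul _ _ E.θ0 (E.hθpm g.2) (E.hθpm h.2),
      ng_mul _ _ (Q283.XF.theta_ne hη) (eta_pm E hη g.2) (eta_pm E hη h.2)]
    ring

include hη in
/-- an automorphism fixing all the square roots and `θ`, and changing the sign of `η` -/
theorem exists_flip2 : ∃ h ∈ E.G0, (∀ r ∈ R, h (E.s (r : ℤ)) = E.s (r : ℤ)) ∧
    h E.θ = E.θ ∧ h η = -η := by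
  obtain ⟨D₁, hD₁, htor⟩ := torsor L
  obtain ⟨p, hpB, hp, hp5⟩ := exists_prime_17 (D₁ + 7 + ∑ r ∈ R, r)
  obtain ⟨h2, h7, hpR, hpD⟩ := good_of_large hpB
  haveI : Fact p.Prime := ⟨hp⟩
  have ht := htor p (hpD hD₁)
  obtain ⟨φ⟩ := nonempty_hom ht
  obtain ⟨k, hk⟩ := exists_frob ht φ
  have f1 := frob_sqrt hk E.h1 h2 (by push_cast; simp)
  have f2 := frob_sqrt hk E.h2 h2 (ne_zero_of Nat.prime_two h2)
  have f7 := frob_sqrt hk E.h7 h2 (by
    have := ne_zero_of (p := p) (q := 7) (by norm_num) h7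
    push_cast at this ⊢
    exact neg_ne_zero.2 this)
  push_cast at f1 f2 f7
  have n1 : k (E.s (-1)) = E.s (-1) := f1.1 (by
    rw [ZMod.exists_sq_eq_neg_one_iff]
    omega)
  have n2 : k (E.s 2) = E.s 2 := f2.1 (by
    rw [ZMod.exists_sq_eq_two_iff h2]
    omega)
  have n7 : k (E.s (-7)) = -E.s (-7) := by
    rcases gal_sqrt k E.h7 with h | h
    · exfalso
      have := f7.2 h
      rw [neg7_iff p h2 h7] at this
      omega
    · exact h
  have hsq : ∀ (a : ℤ), (E.s a) ^ 2 = ((a : ℤ) : L) → (k * k) (E.s a) = E.s a := by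
    intro a ha
    show k (k (E.s a)) = E.s a
    rcases gal_sqrt k ha with h | h
    · rw [h, h]
    · rw [h, map_neg, h, neg_neg]
  refine ⟨k * k, ⟨hsq _ E.h1, hsq _ E.h2, hsq _ E.h7⟩, fun r hr => hsq _ (E.hr r hr), ?_, ?_⟩
  · show k (k E.θ) = E.θ
    have hθ := E.hθ
    have h1 : (2 * E.θ ^ 2 - 1) ^ 2 = (E.s (-7)) ^ 2 := by
      rw [E.h7]; push_cast; linear_combination 4 * hθ
    have h3 : k (2 * E.θ ^ 2 - 1) = -(2 * E.θ ^ 2 - 1) := by
      rcases sq_eq_sq_iff_eq_or_eq_neg.1 h1 with h | h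
      · rw [h, n7]
      · rw [h, map_neg, n7]
    have h4 : (k E.θ) ^ 2 = 1 - E.θ ^ 2 := by
      rw [map_sub, map_mul, map_pow, map_one, map_ofNat] at h3
      have h5 : (2 : L) * ((k E.θ) ^ 2 - (1 - E.θ ^ 2)) = 0 := by linear_combination h3
      rcases mul_eq_zero.1 h5 with h6 | h6
      · norm_num at h6
      · linear_combination h6
    have h5 : (E.θ * k E.θ) ^ 2 = (E.s 2) ^ 2 := by
      rw [mul_pow, h4, E.h2]; push_cast; linear_combination -hθ
    have h6 : k (E.θ * k E.θ) = E.θ * k E.θ := by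
      rcases sq_eq_sq_iff_eq_or_eq_neg.1 h5 with h | h
      · rw [h, n2]
      · rw [h, map_neg, n2]
    rw [map_mul] at h6
    have hk0 : k E.θ ≠ 0 := by
      rw [Ne, map_eq_zero_iff k k.injective]; exact E.θ0
    have h7 : k E.θ * (k (k E.θ) - E.θ) = 0 := by linear_combination h6
    rcases mul_eq_zero.1 h7 with h8 | h8
    · exact absurd h8 hk0
    · linear_combination h8
  · show k (k η) = -η
    have h0 : (η ^ 2) ^ 2 = (E.s (-7)) ^ 2 := by
      rw [E.h7, ← pow_mul]; push_cast; exact hη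
    have n8 : k (η ^ 2) = -η ^ 2 := by
      rcases sq_eq_sq_iff_eq_or_eq_neg.1 h0 with h | h
      · rw [h, n7]
      · rw [h, map_neg, n7]
    have h4 : (k η) ^ 2 = (E.s (-1) * η) ^ 2 := by
      rw [← map_pow, n8, mul_pow, E.h1]; push_cast; ring
    have h1 := E.h1
    push_cast at h1
    rcases sq_eq_sq_iff_eq_or_eq_neg.1 h4 with h | h
    · rw [h, map_mul, n1, h]
      linear_combination η * h1
    · rw [h, map_neg, map_mul, n1, h]
      linear_combination η * h1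

theorem ng_neg {h : Gal(L/ℚ)} {x : L} (hx : x ≠ 0) (hh : h x = -x) : ng h x = 1 := by
  unfold ng
  rw [if_neg]
  rw [hh]
  intro h3
  apply hx
  have : (2 : L) * x = 0 := by linear_combination -h3
  rcases mul_eq_zero.1 this with h5 | h5
  · norm_num at h5
  · exact h5

theorem ng_fix {h : Gal(L/ℚ)} {x : L} (hh : h x = x) : ng h x = 0 := by
  unfold ng
  rw [if_pos hh]

theorem wH_surj : Function.Surjective (wH E hR hη) := by
  intro x
  have h01 : ∀ z : ZMod 2, z = 0 ∨ z = 1 := by decide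
  rcases h01 (Multiplicative.toAdd x) with hx | hx
  · refine ⟨1, ?_⟩
    rw [map_one, ← ofAdd_toAdd x, hx, ofAdd_zero]
  · obtain ⟨h, hhG, hh1, hh2, hh3⟩ := exists_flip2 E hη
    refine ⟨⟨h, hhG⟩, ?_⟩
    rw [← ofAdd_toAdd x, hx]
    show Multiplicative.ofAdd (wg E η h) = _
    congr 1
    unfold wg Q283.TW.Dat.dg
    rw [ng_neg (Q283.XF.theta_ne hη) hh3, ng_fix hh2, Finset.sum_eq_zero fun r hr => ng_fix (hh1 r hr)]
    rfl

include hR hη in
theorem ratio2 : (Nat.card {g : E.G0 // wg E η g.1 ≠ 0} : ℝ) / (Nat.card E.G0 : ℝ) = 1 / 2 := by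
  have hsur := wH_surj E hR hη
  have h1 := card_fib (wH E hR hη) (fun b => Multiplicative.toAdd b ≠ 0) (fun b _ => hsur b)
  have h2 := card_fib (wH E hR hη) (fun _ => True) (fun b _ => hsur b)
  have h3 : Nat.card {a : E.G0 // True} = Nat.card E.G0 :=
    Nat.card_congr (Equiv.subtypeUnivEquiv fun _ => trivial)
  have h4 : Nat.card {b : Multiplicative (ZMod 2) // True} = 2 := by
    have h5 : Nat.card (Multiplicative (ZMod 2)) = 2 := by
      rw [Nat.card_congr Multiplicative.toAdd, Nat.card_eq_fintype_card, ZMod.card]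
    refine (Nat.card_congr ?_).trans h5
    exact Equiv.subtypeUnivEquiv (p := fun _ : Multiplicative (ZMod 2) => True) fun _ => trivial
  have h5 : Nat.card {b : Multiplicative (ZMod 2) // Multiplicative.toAdd b ≠ 0} = 1 := by
    have h6 : Nat.card {b : ZMod 2 // b ≠ 0} = 1 := by
      rw [Nat.card_eq_fintype_card]
      decide
    exact h6
  rw [h3, h4] at h2
  rw [h5] at h1
  have h1' : Nat.card {g : E.G0 // wg E η g.1 ≠ 0} = Nat.card (wH E hR hη).ker * 1 := h1
  rw [h1', h2]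
  have hk : 0 < Nat.card (wH E hR hη).ker := Nat.card_pos
  push_cast
  have hk' : (Nat.card (wH E hR hη).ker : ℝ) ≠ 0 := by positivity
  field_simp

end

open scoped Classical in
/-- **half of the split primes** -/
theorem half (R : Finset ℕ) (hR : ∀ r ∈ R, r.Prime ∧ r ≠ 2 ∧ r ≠ 7) :
    Tendsto (fun X : ℕ => (((range (X + 1)).filter fun p => Spl p ∧
        ∑ r ∈ R, nrp p r + xp1 p + nf p ≠ 0).card : ℝ) /
      (((range (X + 1)).filter fun p => Spl p).card : ℝ)) atTop (𝓝 (1 / 2)) := by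
  obtain ⟨L, hL, hN, hG, s, θ, η, hθ, hη, hs⟩ := exists_field2
    (({-1, 2, -7} : Finset ℤ) ∪ R.image (fun r : ℕ => (r : ℤ)))
  let E : Q283.TW.Dat L R :=
    { s := s
      θ := θ
      hθ := hθ
      h1 := hs _ (by simp)
      h2 := hs _ (by simp)
      h7 := hs _ (by simp)
      hr := fun r hr => hs _ (by simp [hr]) }
  set C : Set Gal(L/ℚ) := {g | g ∈ E.G0 ∧ wg E η g ≠ 0} with hC
  have hD0 : 0 < 14 * ∏ r ∈ R, r := by
    have : 0 < ∏ r ∈ R, r := Finset.prod_pos fun r hr => (hR r hr).1.pos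
    omega
  have hgood : ∀ p : ℕ, p.Prime → ¬ p ∣ 14 * ∏ r ∈ R, r → p ≠ 2 ∧ p ≠ 7 ∧ p ∉ R := by
    intro p hp hpd
    refine ⟨?_, ?_, ?_⟩
    · rintro rfl; exact hpd (Dvd.dvd.mul_right (by norm_num) _)
    · rintro rfl; exact hpd (Dvd.dvd.mul_right (by norm_num) _)
    · intro h; exact hpd ((Finset.dvd_prod_of_mem (fun r => r) h).mul_left _)
  have d0 := Q283.TW.dens_of L (E.G0 : Set Gal(L/ℚ)) Spl (14 * ∏ r ∈ R, r) hD0 (by
    intro p hp hpd φ g hφ
    obtain ⟨h2, h7, hpR⟩ := hgood p hp.out hpd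
    exact (E.frob_facts hR h2 h7 hpR hφ).1)
  have d1 := Q283.TW.dens_of L C (fun p => Spl p ∧ ∑ r ∈ R, nrp p r + xp1 p + nf p ≠ 0)
    (14 * ∏ r ∈ R, r) hD0 (by
    intro p hp hpd φ g hφ
    obtain ⟨h2, h7, hpR⟩ := hgood p hp.out hpd
    obtain ⟨f1, f2, f3⟩ := E.frob_facts hR h2 h7 hpR hφ
    have key : Spl p → ∑ r ∈ R, nrp p r + xp1 p + nf p = wg E η g := by
      intro hsp
      have hgG := f1.1 hsp
      have f := Q283.XF.frob_theta hφ hη (eta_sq E hη hgG) h2 h7 (by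
        rw [ZMod.exists_sq_eq_neg_one_iff]
        have := hsp.2.1
        omega)
      have f4 : nf p = ng g η := by
        unfold nf ng
        by_cases hc : ∃ y : ZMod p, y ^ 4 = -7
        · rw [if_pos hc, if_pos (f.1 hc)]
        · rw [if_neg hc, if_neg (fun h => hc (f.2 h))]
      unfold wg Q283.TW.Dat.dg
      rw [f4, f3 hsp, Finset.sum_congr rfl f2]
    constructor
    · rintro ⟨hsp, hTp⟩
      exact ⟨f1.1 hsp, by rw [← key hsp]; exact hTp⟩
    · rintro ⟨hg, hPg⟩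
      exact ⟨f1.2 hg, by rw [key (f1.2 hg)]; exact hPg⟩)
  have hCcard : Nat.card C = Nat.card {g : E.G0 // wg E η g.1 ≠ 0} := by
    refine Nat.card_congr
      { toFun := fun x => ⟨⟨x.1, x.2.1⟩, x.2.2⟩
        invFun := fun x => ⟨x.1.1, x.1.2, x.2⟩
        left_inv := fun x => rfl
        right_inv := fun x => rfl }
  have hGpos : (0 : ℝ) < Nat.card Gal(L/ℚ) := by
    have := Nat.card_pos (α := Gal(L/ℚ))
    exact_mod_cast this
  have hG0pos : (0 : ℝ) < Nat.card E.G0 := by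
    have := Nat.card_pos (α := E.G0)
    exact_mod_cast this
  have hlim := d1.div d0 (by
    have : (0 : ℝ) < (Nat.card (E.G0 : Set Gal(L/ℚ)) : ℝ) / Nat.card Gal(L/ℚ) :=
      div_pos hG0pos hGpos
    exact this.ne')
  have hval : (Nat.card C : ℝ) / (Nat.card Gal(L/ℚ) : ℝ) /
      ((Nat.card (E.G0 : Set Gal(L/ℚ)) : ℝ) / (Nat.card Gal(L/ℚ) : ℝ)) = 1 / 2 := by
    have h1 := ratio2 E hR hη
    have h2 : (Nat.card (E.G0 : Set Gal(L/ℚ)) : ℝ) = Nat.card E.G0 := rfl
    rw [div_div_div_cancel_right₀ hGpos.ne', hCcard, h2, h1]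
  rw [hval] at hlim
  refine hlim.congr' ?_
  filter_upwards [eventually_ge_atTop 2] with X hX
  have hpc : (Nat.primeCounting X : ℝ) ≠ 0 := by
    have : Nat.primeCounting X ≠ 0 := by
      rw [Ne, Nat.primeCounting_eq_zero_iff]
      omega
    exact_mod_cast this
  have hcount : ∀ Q : ℕ → Prop, (∀ p, Q p → p.Prime) →
      (∑ p ∈ pr X, if Q p then (1 : ℝ) else 0) = (((range (X + 1)).filter fun p => Q p).card : ℝ) := by
    intro Q hQ
    rw [Finset.sum_boole]
    congr 2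
    ext p
    unfold pr
    rw [mem_filter, mem_filter, mem_filter]
    constructor
    · rintro ⟨⟨h1, -⟩, h2⟩; exact ⟨h1, h2⟩
    · rintro ⟨h1, h2⟩; exact ⟨⟨h1, hQ p h2⟩, h2⟩
  show M _ X / M _ X = _
  unfold M
  rw [hcount _ (fun p h => h.1.1), hcount _ (fun p h => h.1), div_div_div_cancel_right₀ hpc]
  congr

end Q283.J2
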