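import Pool.Agent.Q283.J2.Conv
import Pool.Agent.Q283.J2.Lfun
import Pool.Agent.Q283.XF.MatD
import Pool.Agent.Y687.JQ.Kl

/-!
# The matrix of the twists of `X_0(49)` and the system of equations
-/

set_option autoImplicit false
set_option linter.unusedSectionVars false

namespace Q283.J2

open Finset
open Pool.Agent.Y698 (Inq AX)
open Pool.Agent.Y698.SG (Spl Gp mat nq n4)
open Pool.Agent.Y703.CQ (Sp nr cu Sol Gd)
open Pool.Agent.Y687.JQ (nr_self)
open Q283.XF (nf)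

/-- the primes `5` modulo `8` which are not squares modulo `7` -/
def In5 (q : ℕ) : Prop := q.Prime ∧ q % 8 = 5 ∧ (q % 7 = 3 ∨ q % 7 = 5 ∨ q % 7 = 6)

lemma nr_nq (p q : ℕ) : nr p q = nq p q := by
  unfold nr nq
  split_ifs <;> rfl

lemma nf_n4 (p : ℕ) : nf p = n4 p := by
  unfold nf n4
  split_ifs <;> rfl

lemma spl_of_sp {p : ℕ} (h : Sp p) : Spl p := by
  have : Fact p.Prime := ⟨h.1⟩
  have h4 : p % 4 = 1 := by have := h.2.1; omega
  refine ⟨h.1, h4, ?_⟩
  rw [Pool.Agent.Y687.sq_seven p h4 (by rintro rfl; have := h.2.2; norm_num at this)]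
  exact h.2.2

lemma inq_of_in5 {p : ℕ} (h : In5 p) : Inq p := by
  have : Fact p.Prime := ⟨h.1⟩
  have h4 : p % 4 = 1 := by have := h.2.1; omega
  refine ⟨h.1, h4, ?_⟩
  rw [Pool.Agent.Y687.sq_seven p h4 (by rintro rfl; have := h.2.2; norm_num at this)]
  have := h.2.2
  omega

section
variable {S : Finset ℕ} (hS : ∀ p ∈ S, Sp p ∨ In5 p)

/-- the split primes -/
def PS (S : Finset ℕ) : Finset ℕ := S.filter fun p => p % 8 = 1

/-- the inert primes -/
def QS (S : Finset ℕ) : Finset ℕ := S.filter fun p => ¬ p % 8 = 1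

lemma union_QP (S : Finset ℕ) : QS S ∪ PS S = S := by
  unfold QS PS
  rw [Finset.union_comm]
  exact Finset.filter_union_filter_not_eq _ _

include hS in
lemma PS_spl : ∀ p ∈ PS S, Spl p := by
  intro p hp
  obtain ⟨h1, h2⟩ := Finset.mem_filter.1 hp
  rcases hS p h1 with h | h
  · exact spl_of_sp h
  · have := h.2.1; omega

include hS in
lemma QS_inq : ∀ p ∈ QS S, Inq p := by
  intro p hp
  obtain ⟨h1, h2⟩ := Finset.mem_filter.1 hp
  rcases hS p h1 with h | h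
  · exact absurd h.2.1 h2
  · exact inq_of_in5 h

/-- a row of the system -/
theorem row49 (S : Finset ℕ) (x : ℕ → ZMod 2) (i : PS S) :
    (mat (QS S) (PS S)).mulVec (fun j => x j) i =
      ∑ q ∈ S, nr i q * (cu x q + x i) + nf i * x i := by
  classical
  have hdisj : Disjoint (QS S) (PS S) := by
    rw [Finset.disjoint_left]
    intro a ha hb
    exact (Finset.mem_filter.1 ha).2 (Finset.mem_filter.1 hb).2
  have hsum : ∀ g : ℕ → ZMod 2, ∑ q ∈ S, g q = ∑ q ∈ QS S, g q + ∑ q ∈ PS S, g q := by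
    intro g
    rw [← Finset.sum_union hdisj, union_QP]
  have e1 : ∑ q ∈ S, nr i q * (cu x q + x i) =
      ∑ q ∈ PS S, nr i q * x q + (∑ q ∈ S, nr i q) * x i := by
    rw [Finset.sum_mul]
    unfold PS
    rw [Finset.sum_filter, ← Finset.sum_add_distrib]
    refine Finset.sum_congr rfl fun q _ => ?_
    unfold cu
    split_ifs <;> ring
  have e2 : ∑ q ∈ PS S, nr i q * x q = ∑ j : PS S, nr i j * x j :=
    (Finset.sum_coe_sort (PS S) (fun q => nr i q * x q)).symm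
  have e5 : ∑ q ∈ PS S, nr i q = ∑ q ∈ (PS S).erase i, nr i q := by
    rw [← Finset.add_sum_erase (PS S) (fun q => nr i q) i.2, nr_self, zero_add]
  rw [e1, e2, hsum, e5]
  unfold Matrix.mulVec dotProduct
  rw [← Finset.add_sum_erase univ _ (Finset.mem_univ i),
    ← Finset.add_sum_erase univ (fun j : PS S => nr i j * x j) (Finset.mem_univ i), nr_self,
    zero_mul, zero_add]
  have e3 : ∑ j ∈ univ.erase i, mat (QS S) (PS S) i j * x j =
      ∑ j ∈ univ.erase i, nr i j * x j := by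
    refine Finset.sum_congr rfl fun j hj => ?_
    have hne : i ≠ j := fun h => (Finset.mem_erase.1 hj).1 h.symm
    congr 1
    unfold mat
    rw [Matrix.of_apply, if_neg hne, nr_nq]
  rw [e3]
  have e4 : mat (QS S) (PS S) i i = nf i + ∑ q ∈ QS S, nr i q + ∑ q ∈ (PS S).erase i, nr i q := by
    unfold mat
    rw [Matrix.of_apply, if_pos rfl, nf_n4]
    simp only [nr_nq]
  show mat (QS S) (PS S) i i * x i + _ = _
  rw [e4]
  ring

/-- the determinant and the system -/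
theorem det49 (S : Finset ℕ) : (mat (QS S) (PS S)).det ≠ 0 ↔ Gd nf S := by
  classical
  have key : ∀ x : ℕ → ZMod 2, Sol nf S x ↔
      (mat (QS S) (PS S)).mulVec (fun j => x j) = 0 := by
    intro x
    unfold Sol
    constructor
    · intro h
      funext i
      rw [row49, Pi.zero_apply]
      have hi := Finset.mem_filter.1 i.2
      exact h i hi.1 hi.2
    · intro h p hp hp8
      have h1 := congrFun h ⟨p, Finset.mem_filter.2 ⟨hp, hp8⟩⟩
      rw [row49, Pi.zero_apply] at h1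
      exact h1
  constructor
  · intro hdet x hx p hp hp8
    rw [key] at hx
    by_contra hne
    apply hdet
    rw [← Matrix.exists_mulVec_eq_zero_iff]
    refine ⟨_, ?_, hx⟩
    intro h
    exact hne (congrFun h ⟨p, Finset.mem_filter.2 ⟨hp, hp8⟩⟩)
  · intro hG h0
    obtain ⟨v, hv, hv0⟩ := Matrix.exists_mulVec_eq_zero_iff.2 h0
    apply hv
    set x : ℕ → ZMod 2 := fun p => if h : p ∈ PS S then v ⟨p, h⟩ else 0 with hx
    have e : (fun j : PS S => x j) = v := by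
      funext j
      rw [hx]
      simp only [j.2, dite_true]
    have h1 := hG x ((key x).2 (by rw [e]; exact hv0))
    funext j
    have hj := Finset.mem_filter.1 j.2
    have h2 := h1 j hj.1 hj.2
    rw [← e]
    exact h2

end

/-! ### the short model -/

/-- finite Mordell-Weil group and no element of order two in the Tate-Shafarevich group, for the twist
of `X_0(49)` -/
def RZ49 (D : ℤ) : Prop :=
  Finite (Pool.Agent.Z702.sh (-2835 * D ^ 2) (-71442 * D ^ 3)).toAffine.Point ∧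
    ∀ x : Pool.Agent.TH841.SH.D.Sha (Pool.Agent.Z702.sh (-2835 * D ^ 2) (-71442 * D ^ 3)),
      x + x = 0 → x = 0

lemma delta49 (D : ℤ) : (Pool.Agent.Z702.sh (-2835 * D ^ 2) (-71442 * D ^ 3)).Δ =
    -16 * (4 * (-2835) ^ 3 + 27 * 71442 ^ 2) * (D : ℚ) ^ 6 := by
  simp only [Pool.Agent.Z702.sh, WeierstrassCurve.Δ, WeierstrassCurve.b₂, WeierstrassCurve.b₄,
    WeierstrassCurve.b₆, WeierstrassCurve.b₈]
  push_cast
  ring

open Pool.Agent.Y698.SG.Cv (WF) in
/-- the two models -/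
lemma trn49 {D : ℤ} (hD : D ≠ 0) : RZ49 D ↔ (Finite (WF ℚ (21 * D) (112 * D ^ 2)).toAffine.Point ∧
    ∀ x : Pool.Agent.TH841.SH.D.Sha (WF ℚ (21 * D) (112 * D ^ 2)), x + x = 0 → x = 0) := by
  have hΔ : (Pool.Agent.Z702.sh (-2835 * D ^ 2) (-71442 * D ^ 3)).Δ ≠ 0 := by
    rw [delta49]
    exact mul_ne_zero (by norm_num) (pow_ne_zero 6 (by exact_mod_cast hD))
  have hv : Pool.Agent.Y700.VR (WF ℚ (21 * D) (112 * D ^ 2))
      (Pool.Agent.Z702.sh (-2835 * D ^ 2) (-71442 * D ^ 3)) (1 / 3) (-7 * D) 0 0 := by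
    refine ⟨by norm_num, ?_, ?_, ?_, ?_, ?_⟩
    · show (1 / 3 : ℚ) * 0 = 0 + 2 * 0
      norm_num
    · show (1 / 3 : ℚ) ^ 2 * 0 = ((21 * D : ℤ) : ℚ) - 0 * 0 + 3 * (-7 * D) - 0 ^ 2
      push_cast
      ring
    · show (1 / 3 : ℚ) ^ 3 * 0 = 0 + (-7 * D) * 0 + 2 * 0
      ring
    · show (1 / 3 : ℚ) ^ 4 * ((-2835 * D ^ 2 : ℤ) : ℚ) = ((112 * D ^ 2 : ℤ) : ℚ) - 0 * 0 +
        2 * (-7 * D) * ((21 * D : ℤ) : ℚ) - (0 + (-7 * D) * 0) * 0 +
        3 * (-7 * (D : ℚ)) ^ 2 - 2 * 0 * 0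
      push_cast
      ring
    · show (1 / 3 : ℚ) ^ 6 * ((-71442 * D ^ 3 : ℤ) : ℚ) = 0 +
        (-7 * D) * ((112 * D ^ 2 : ℤ) : ℚ) + (-7 * D) ^ 2 * ((21 * D : ℤ) : ℚ) +
        (-7 * (D : ℚ)) ^ 3 - 0 * 0 - 0 ^ 2 - (-7 * D) * 0 * 0
      push_cast
      ring
  obtain ⟨h1, h2, -⟩ := Pool.Agent.Z702.f_TRN _ _ _ _ _ _ hv hΔ
  unfold RZ49
  rw [← h1, ← h2]

/-- the criterion in terms of the set of primes -/
theorem rz49_iff {S : Finset ℕ} (hS : ∀ p ∈ S, Sp p ∨ In5 p) :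
    RZ49 ((∏ p ∈ S, p : ℕ) : ℤ) ↔ Gd nf S := by
  classical
  have hm4 := Pool.Agent.Y698.prod_mod_four (S := QS S ∪ PS S) fun q hq => by
    rw [union_QP] at hq
    rcases hS q hq with h | h
    · have := h.2.1; omega
    · have := h.2.1; omega
  obtain ⟨j, hj⟩ : ∃ j, ∏ q ∈ QS S ∪ PS S, q = 1 + 4 * j := ⟨(∏ q ∈ QS S ∪ PS S, q) / 4, by omega⟩
  have h1 := critQ (QS_inq hS) (PS_spl hS) hj
  rw [← det49, h1]
  have e : ∏ p ∈ S, p = 1 + 4 * j := by
    rw [← hj, union_QP]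
  rw [e]
  exact trn49 (by rw [Nat.cast_ne_zero]; omega)

/-- the points of the short model -/
lemma finite_set {a b : ℤ} (hΔ : (Pool.Agent.Z702.sh a b).Δ ≠ 0)
    (h : Finite (Pool.Agent.Z702.sh a b).toAffine.Point) :
    {q : ℚ × ℚ | q.2 ^ 2 = q.1 ^ 3 + (a : ℚ) * q.1 + (b : ℚ)}.Finite := by
  have hns : ∀ x y : ℚ, y ^ 2 = x ^ 3 + (a : ℚ) * x + (b : ℚ) →
      (Pool.Agent.Z702.sh a b).toAffine.Nonsingular x y := by
    intro x y hxy
    rw [← WeierstrassCurve.Affine.equation_iff_nonsingular_of_Δ_ne_zero hΔ,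
      WeierstrassCurve.Affine.equation_iff]
    show y ^ 2 + 0 * x * y + 0 * y = x ^ 3 + 0 * x ^ 2 + (a : ℚ) * x + (b : ℚ)
    linear_combination hxy
  let f : {q : ℚ × ℚ | q.2 ^ 2 = q.1 ^ 3 + (a : ℚ) * q.1 + (b : ℚ)} →
      (Pool.Agent.Z702.sh a b).toAffine.Point := fun q => .some q.1.1 q.1.2 (hns _ _ q.2)
  have hf : Function.Injective f := by
    intro q q' hq
    have h1 : q.1.1 = q'.1.1 ∧ q.1.2 = q'.1.2 := by
      simpa [f] using hq
    exact Subtype.ext (Prod.ext h1.1 h1.2)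
  exact Set.finite_coe_iff.1 (Finite.of_injective f hf)

end Q283.J2
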