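import Pool.Agent.Y682.Rst
import Pool.Agent.Y723.QT.Bc
import Pool.Agent.Y698.SG.Cc

/-!
# Descent of the vanishing of `Ш[2]` from quadratic fields to `ℚ`

An element of order two of the Tate-Shafarevich group over `ℚ` which dies over the quadratic field `K` is
the class of `χ_K T`, if the Mordell-Weil group over `K` has order twice an odd number.
-/

set_option autoImplicit false
set_option linter.unusedSectionVars false

attribute [-instance] DivisionRing.toRatAlgebra

namespace Q283.J2

open WeierstrassCurve NumberField IsDedekindDomain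
open Pool.Agent.TH841.NF (Sc Qb aG Fx cQ cF tm tm_some tm_zero tm_inj act_some' act_zero' pt_ext tr
  tr_cob sc_any sc_any' cQ_fx cF_cQ tr_cQ act_act act_id)
open Pool.Agent.TH841.SH.D (Pt act Gal Coch IsCoc IsCob LocTriv cob)
open Pool.Agent.Y682 (rs rsC rsS tr_rs)
open Pool.Agent.Y698.SG.Cv (WF LocI coc T0)

/-! ### Groups of order twice an odd number -/

/-- a group of order `2 k`, `k` odd -/
theorem two_odd {B : Type} [AddCommGroup B] {k : ℕ} (hk : Odd k)
    (hc : Nat.card B = 2 * k) {T : B} (hT : T ≠ 0) (hT2 : T + T = 0) (Q : B) :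
    ∃ n : ℤ, Q = n • Q + n • Q ∨ Q = n • Q + n • Q + T := by
  have hk0 : 0 < k := hk.pos
  have hfin : Finite B := Nat.finite_of_card_ne_zero (by omega)
  -- the elements of order two
  have htwo : ∀ z : B, z + z = 0 → z = 0 ∨ z = T := by
    intro z hz
    by_contra hcon
    rw [not_or] at hcon
    obtain ⟨hz0, hzT⟩ := hcon
    let fT : ZMod 2 →+ B := ZMod.lift 2 ⟨zmultiplesHom B T, by
      rw [zmultiplesHom_apply]
      push_cast
      rw [two_zsmul, hT2]⟩
    let fz : ZMod 2 →+ B := ZMod.lift 2 ⟨zmultiplesHom B z, by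
      rw [zmultiplesHom_apply]
      push_cast
      rw [two_zsmul, hz]⟩
    have eT : fT 1 = T := by
      have := ZMod.lift_coe 2 (⟨zmultiplesHom B T, by
        rw [zmultiplesHom_apply]
        push_cast
        rw [two_zsmul, hT2]⟩ : {f : ℤ →+ B // f (2 : ℕ) = 0}) 1
      simpa using this
    have ez : fz 1 = z := by
      have := ZMod.lift_coe 2 (⟨zmultiplesHom B z, by
        rw [zmultiplesHom_apply]
        push_cast
        rw [two_zsmul, hz]⟩ : {f : ℤ →+ B // f (2 : ℕ) = 0}) 1
      simpa using this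
    have hinj : Function.Injective (fT.coprod fz) := by
      rw [injective_iff_map_eq_zero]
      rintro ⟨i, j⟩ h
      rw [AddMonoidHom.coprod_apply] at h
      have h01 : ∀ z : ZMod 2, z = 0 ∨ z = 1 := by decide
      rcases h01 i with rfl | rfl <;> rcases h01 j with rfl | rfl
      · rfl
      · rw [map_zero, zero_add, ez] at h
        exact absurd h hz0
      · rw [map_zero, add_zero, eT] at h
        exact absurd h hT
      · rw [eT, ez] at h
        exfalso
        apply hzT
        have h1 : z = -T := eq_neg_of_add_eq_zero_right h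
        rw [h1, neg_eq_iff_add_eq_zero, hT2]
    have hd := AddSubgroup.card_dvd_of_injective (fT.coprod fz) hinj
    rw [hc, Nat.card_prod, Nat.card_zmod] at hd
    obtain ⟨m, hm⟩ := hk
    obtain ⟨l, hl⟩ := hd
    omega
  obtain ⟨m, hm⟩ := hk
  have h1 : (k : ℤ) • Q = 0 ∨ (k : ℤ) • Q = T := by
    apply htwo
    have h2 : (Nat.card B) • Q = 0 := card_nsmul_eq_zero'
    rw [hc, mul_nsmul', two_nsmul] at h2
    rw [natCast_zsmul]
    exact h2
  have h3 : Q = (-(m : ℤ)) • Q + (-(m : ℤ)) • Q + (k : ℤ) • Q := by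
    rw [← add_zsmul, ← add_zsmul, hm]
    push_cast
    have e : (-(m : ℤ) + -(m : ℤ) + (2 * m + 1)) = 1 := by ring
    rw [e, one_zsmul]
  refine ⟨-(m : ℤ), ?_⟩
  rcases h1 with h1 | h1
  · left
    rw [h1, add_zero] at h3
    exact h3
  · right
    rw [h1] at h3
    exact h3

/-! ### Cocycles which are coboundaries on a subgroup of index two -/

theorem quad_class {G M : Type} [Group G] [AddCommGroup M] (a : G →* AddMonoid.End M)
    (H : Subgroup G) (hH : ∀ g g' : G, g ∉ H → g' ∉ H → g * g' ∈ H) (f : G → M)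
    (hf : ∀ x y, f (x * y) = f x + a x (f y)) {P : M} (hP : ∀ h ∈ H, f h = a h P - P) (T : M)
    (hA : ∀ Q : M, (∀ h ∈ H, a h Q = Q) → ∃ n : ℤ, Q = n • Q + n • Q ∨ Q = n • Q + n • Q + T) :
    ∃ R : M, (∀ g, f g = a g R - R) ∨ ((∀ g ∈ H, f g = a g R - R) ∧
      ∀ g, g ∉ H → f g = a g R - R + T) := by
  by_cases hne : ∃ g0 : G, g0 ∉ H
  · obtain ⟨g0, hg0⟩ := hne
    have ha : ∀ x y : G, ∀ m : M, a (x * y) m = a x (a y m) := fun x y m => by
      rw [map_mul]; rfl
    set F : G → M := fun g => f g - (a g P - P) with hF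
    have hFm : ∀ x y, F (x * y) = F x + a x (F y) := by
      intro x y
      simp only [hF, hf, ha, map_sub]
      abel
    have hFH : ∀ h ∈ H, F h = 0 := fun h hh => by rw [hF]; simp only; rw [hP h hh, sub_self]
    set Q := F g0 with hQ
    have h1 : ∀ g, g ∉ H → F g = Q := by
      intro g hg
      have hg0' : g0⁻¹ ∉ H := fun h => hg0 (inv_mem_iff.1 h)
      have h2 := hH _ _ hg0' hg
      have h3 := hFm g0 (g0⁻¹ * g)
      rw [mul_inv_cancel_left, hFH _ h2, map_zero, add_zero] at h3
      exact h3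
    have h2 : ∀ h ∈ H, a h Q = Q := by
      intro h hh
      have hhg : h * g0 ∉ H := fun h3 => hg0 ((H.mul_mem_cancel_left hh).1 h3)
      have h3 := hFm h g0
      rw [hFH h hh, zero_add, h1 _ hhg] at h3
      exact h3.symm
    have h3 : ∀ g, g ∉ H → a g Q = -Q := by
      intro g hg
      have h4 := hFm g g
      rw [hFH _ (hH g g hg hg), h1 g hg] at h4
      exact (neg_eq_of_add_eq_zero_right h4.symm).symm
    obtain ⟨n, hn⟩ := hA Q h2
    have e1 : ∀ g, f g = F g + (a g P - P) := fun g => by rw [hF]; simp only; abel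
    refine ⟨P - n • Q, ?_⟩
    rcases hn with hn | hn
    · left
      intro g
      by_cases hg : g ∈ H
      · rw [e1, hFH g hg, map_sub, map_zsmul, h2 g hg]
        abel
      · rw [e1, h1 g hg, map_sub, map_zsmul, h3 g hg]
        nth_rewrite 1 [hn]
        rw [zsmul_neg]
        abel
    · right
      refine ⟨fun g hg => ?_, fun g hg => ?_⟩
      · rw [e1, hFH g hg, map_sub, map_zsmul, h2 g hg]
        abel
      · rw [e1, h1 g hg, map_sub, map_zsmul, h3 g hg]
        nth_rewrite 1 [hn]
        rw [zsmul_neg]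
        abel
  · push Not at hne
    exact ⟨P, Or.inl fun g => hP g (hne g)⟩

end Q283.J2
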