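import Pool.Agent.Q283.J2.Desc
import Pool.Agent.Q283.XF.Arith
import Pool.Agent.Y698.SG.Uj
import Pool.Agent.Y698.Kf
import Pool.Agent.Y687.Aq

/-!
# Twists of `X_0(49)` over `ℚ`: a nonsingular matrix gives rank zero and `Ш[2] = 0`
-/

set_option autoImplicit false
set_option linter.unusedSectionVars false

namespace Q283.J2

open WeierstrassCurve NumberField IsDedekindDomain IntermediateField
open Pool.Agent.TH841.NF (Sc Qb tm tm_inj)
open Pool.Agent.TH841.SH.D (Pt act Gal Coch IsCoc IsCob LocTriv cob)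
open Pool.Agent.Y698.SG.Cv (WF LocI coc T0 ns0)
open Pool.Agent.Y698 (Inq AX)
open Pool.Agent.Y698.SG (Spl Gp mat vr_AX AX_ne Dt)

/-- the quadratic subfield of `ℚ(ζ_r)` -/
theorem exists_quad {r : ℕ} (hr : r.Prime) (hr4 : r % 4 = 1) :
    ∃ (K : IntermediateField ℚ (CyclotomicField r ℚ)) (ρ : K), Module.finrank ℚ K = 2 ∧
      ρ ^ 2 = ((r : ℤ) : K) ∧
      ∀ x : K, ∃ u v : ℚ, x = algebraMap ℚ K u + algebraMap ℚ K v * ρ := by
  have : Fact r.Prime := ⟨hr⟩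
  have hM : IsCyclotomicExtension {r} ℚ (CyclotomicField r ℚ) := Pool.Agent.Y698.cyc_inst r
  have hr2 : r ≠ 2 := by rintro rfl; omega
  obtain ⟨g, g1, -⟩ := Pool.Agent.Y698.gauss hr2
    (IsCyclotomicExtension.zeta_spec r ℚ (CyclotomicField r ℚ))
  have h1 : quadraticChar (ZMod r) (-1) = 1 := by
    rw [quadraticChar_one_iff_isSquare (neg_ne_zero.2 one_ne_zero), ZMod.exists_sq_eq_neg_one_iff]
    omega
  rw [h1] at g1
  push_cast at g1
  rw [one_mul] at g1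
  have hns : ∀ b : ℚ, b ^ 2 ≠ (r : ℚ) := by
    intro b hb
    have h2 : IsSquare (r : ℚ) := ⟨b, by rw [← hb]; ring⟩
    rw [Rat.isSquare_natCast_iff] at h2
    obtain ⟨m, hm⟩ := h2
    have h3 : m ∣ r := ⟨m, hm⟩
    rcases (Nat.dvd_prime hr).1 h3 with rfl | rfl
    · rw [one_mul] at hm
      exact hr.one_lt.ne' hm
    · have h4 : m * 1 = m * m := by rw [mul_one]; exact hm
      have h5 := Nat.eq_of_mul_eq_mul_left hr.pos h4
      exact hr.one_lt.ne h5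
  have hirr : Irreducible (Polynomial.X ^ 2 - Polynomial.C (r : ℚ)) :=
    X_pow_sub_C_irreducible_of_prime Nat.prime_two hns
  have hmp : minpoly ℚ g = Polynomial.X ^ 2 - Polynomial.C (r : ℚ) := by
    symm
    apply minpoly.eq_of_irreducible_of_monic hirr
    · rw [map_sub, map_pow, Polynomial.aeval_X, Polynomial.aeval_C, g1, map_natCast, sub_self]
    · exact Polynomial.monic_X_pow_sub_C _ two_ne_zero
  have hint : IsIntegral ℚ g := by
    by_contra h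
    rw [minpoly.eq_zero h] at hmp
    exact hirr.ne_zero hmp.symm
  have hdeg : (minpoly ℚ g).natDegree = 2 := by
    rw [hmp, Polynomial.natDegree_X_pow_sub_C]
  refine ⟨ℚ⟮g⟯, AdjoinSimple.gen ℚ g, ?_, ?_, fun x => ?_⟩
  · rw [adjoin.finrank hint, hdeg]
  · apply Subtype.ext
    show ((AdjoinSimple.gen ℚ g : ℚ⟮g⟯) : CyclotomicField r ℚ) ^ 2 = _
    rw [AdjoinSimple.coe_gen, g1]
    push_cast
    rfl
  · let pb := adjoin.powerBasis hint
    have hdim : pb.dim = 2 := by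
      rw [adjoin.powerBasis_dim, hdeg]
    have hgen : pb.gen = AdjoinSimple.gen ℚ g := adjoin.powerBasis_gen hint
    obtain ⟨f, hf, hx⟩ := pb.exists_eq_aeval x
    rw [hdim] at hf
    obtain ⟨u, v, rfl⟩ := Polynomial.exists_eq_X_add_C_of_natDegree_le_one (by omega : f.natDegree ≤ 1)
    refine ⟨v, u, ?_⟩
    rw [hx, map_add, map_mul, Polynomial.aeval_C, Polynomial.aeval_X, Polynomial.aeval_C, hgen,
      add_comm]
    rfl

/-- finiteness over a subfield -/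
lemma finite_Q {K : Type} [Field K] [NumberField K] {a b : ℤ}
    (hf : Finite (WF K a b).toAffine.Point) : Finite (WF ℚ a b).toAffine.Point := by
  have S : Sc (algebraMap ℚ K) 1 ((WF ℚ a b).baseChange ℚ) ((WF K a b).baseChange K) :=
    sc_WF K a b
  have : Finite (Pt (WF K a b) K) := hf
  exact Finite.of_injective (tm S) (tm_inj S)

section
variable {Q P : Finset ℕ} {j r : ℕ}

lemma hb_ne (j : ℕ) : 112 * ((1 + 4 * j : ℕ) : ℤ) ^ 2 ≠ 0 := by
  have hDZ : ((1 + 4 * j : ℕ) : ℤ) ≠ 0 := by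
    rw [Nat.cast_ne_zero]
    omega
  exact mul_ne_zero (by norm_num) (pow_ne_zero 2 hDZ)

lemma hab_ne (j : ℕ) :
    (21 * ((1 + 4 * j : ℕ) : ℤ)) ^ 2 - 4 * (112 * ((1 + 4 * j : ℕ) : ℤ) ^ 2) ≠ 0 := by
  have hDZ : ((1 + 4 * j : ℕ) : ℤ) ≠ 0 := by
    rw [Nat.cast_ne_zero]
    omega
  have e : (21 * ((1 + 4 * j : ℕ) : ℤ)) ^ 2 - 4 * (112 * ((1 + 4 * j : ℕ) : ℤ) ^ 2) =
    -7 * ((1 + 4 * j : ℕ) : ℤ) ^ 2 := by ring
  rw [e]
  exact mul_ne_zero (by norm_num) (pow_ne_zero 2 hDZ)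

/-- the descent from the quadratic field -/
theorem desc_r (hQ : ∀ q ∈ Q, Inq q ∧ q ≠ r) (hP : ∀ p ∈ P, Spl p)
    (hj : ∏ q ∈ Q ∪ P, q = 1 + 4 * j) (hdet : (mat Q P).det ≠ 0) (hr : Inq r)
    (hPr : ∀ p ∈ P, IsSquare (p : ZMod r)) :
    Finite (WF ℚ (21 * ((1 + 4 * j : ℕ) : ℤ)) (112 * ((1 + 4 * j : ℕ) : ℤ) ^ 2)).toAffine.Point ∧
    ∀ f : Coch (WF ℚ (21 * ((1 + 4 * j : ℕ) : ℤ)) (112 * ((1 + 4 * j : ℕ) : ℤ) ^ 2)),
      Pool.Agent.TH841.SH.D.IsShaCoc _ f → IsCob _ (f + f) →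
      IsCob _ f ∨ IsCob _ (f - coc ℚ (hb_ne j) (r : ℤ)) := by
  classical
  have : Fact r.Prime := ⟨hr.pr⟩
  have hM : IsCyclotomicExtension {r} ℚ (CyclotomicField r ℚ) := Pool.Agent.Y698.cyc_inst r
  obtain ⟨K, ρ, hK, hρ, hgen⟩ := exists_quad hr.pr hr.m4
  have hK1 : Module.finrank ℚ K = 2 ^ 1 := by rw [hK]; norm_num
  have heq := Pool.Agent.Y698.SG.equiv_all (CyclotomicField r ℚ) K hK1 le_rfl hr hQ hP hj
  obtain ⟨hf, hsh⟩ := heq.1 ⟨fun q _ => ⟨(q : ZMod r), by norm_num⟩, fun p hp => by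
    obtain ⟨y, hy⟩ := hPr p hp
    exact ⟨y, by rw [hy]; ring⟩, hdet⟩
  have hV := vr_AX K j
  have hVD := AX_ne K j
  have hfW : Finite (WF K (21 * ((1 + 4 * j : ℕ) : ℤ))
      (112 * ((1 + 4 * j : ℕ) : ℤ) ^ 2)).toAffine.Point :=
    Finite.of_equiv _ (hV.equiv hVD).toEquiv
  have hI := (Pool.Agent.Y655.XT.isoVR hV hVD).sha
  have hsW : ∀ x : Pool.Agent.TH841.NF.D.Sha (WF K (21 * ((1 + 4 * j : ℕ) : ℤ))
      (112 * ((1 + 4 * j : ℕ) : ℤ) ^ 2)), x + x = 0 → x = 0 := by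
    intro x hx
    have h5 := hsh (hI.symm x) (by rw [← map_add, hx, map_zero])
    rw [← hI.apply_symm_apply x, h5, map_zero]
  have hD0 : (1 + 4 * (j : K)) ≠ 0 := by
    have : ((1 + 4 * j : ℕ) : K) ≠ 0 := by
      rw [Nat.cast_ne_zero]
      omega
    push_cast at this
    exact this
  have eab : ((21 * ((1 + 4 * j : ℕ) : ℤ) : ℤ) : K) ^ 2 -
      4 * ((112 * ((1 + 4 * j : ℕ) : ℤ) ^ 2 : ℤ) : K) = -7 * (1 + 4 * (j : K)) ^ 2 := by
    push_cast
    ring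
  have nb : ¬ IsSquare ((112 * ((1 + 4 * j : ℕ) : ℤ) ^ 2 : ℤ) : K) := by
    rintro ⟨s, hs⟩
    apply Pool.Agent.Y698.seven_nonsq (r := r) (CyclotomicField r ℚ) K hr.ns
      (s / (4 * (1 + 4 * (j : K))))
    push_cast at hs
    field_simp
    linear_combination -hs
  have nab : ¬ IsSquare (((21 * ((1 + 4 * j : ℕ) : ℤ) : ℤ) : K) ^ 2 -
      4 * ((112 * ((1 + 4 * j : ℕ) : ℤ) ^ 2 : ℤ) : K)) := by
    rw [eab]
    rintro ⟨s, hs⟩
    apply Pool.Agent.Y698.a_notin (r := r) (CyclotomicField r ℚ) K hr.ns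
      ((1 + s / (1 + 4 * (j : K))) / 2)
    field_simp
    linear_combination -hs
  refine ⟨finite_Q hfW, fun f hf1 hf2 => ?_⟩
  exact descend (hb_ne j) (hab_ne j) nb nab hρ hgen hfW hsW hf1 hf2

end

/-- **rank zero and `Ш[2] = 0` over `ℚ`** -/
theorem fwdQ {Q P : Finset ℕ} {j : ℕ} (hQ : ∀ q ∈ Q, Inq q) (hP : ∀ p ∈ P, Spl p)
    (hj : ∏ q ∈ Q ∪ P, q = 1 + 4 * j) (hdet : (mat Q P).det ≠ 0) :
    Finite (WF ℚ (21 * ((1 + 4 * j : ℕ) : ℤ)) (112 * ((1 + 4 * j : ℕ) : ℤ) ^ 2)).toAffine.Point ∧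
    ∀ x : Pool.Agent.TH841.SH.D.Sha (WF ℚ (21 * ((1 + 4 * j : ℕ) : ℤ))
      (112 * ((1 + 4 * j : ℕ) : ℤ) ^ 2)), x + x = 0 → x = 0 := by
  classical
  have hbase : Q283.XF.Base (Q ∪ P) 3 := by
    refine ⟨by norm_num, by norm_num, by norm_num, ?_, ?_⟩
    · intro h
      have : (3 : ℕ) % 4 = 1 := by
        rcases Finset.mem_union.1 h with h | h
        · exact (hQ 3 h).m4
        · exact (hP 3 h).m4
      norm_num at this
    · intro q hq
      have h1 : q.Prime ∧ q % 4 = 1 := by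
        rcases Finset.mem_union.1 hq with h | h
        · exact ⟨(hQ q h).pr, (hQ q h).m4⟩
        · exact ⟨(hP q h).pr, (hP q h).m4⟩
      refine ⟨h1.1, ?_, ?_⟩
      · rintro rfl; have := h1.2; norm_num at this
      · rintro rfl; have := h1.2; norm_num at this
  have hex : ∀ B : ℕ, ∃ r, B < r ∧ Inq r ∧ (∀ q ∈ Q, q ≠ r) ∧ ∀ p ∈ P, IsSquare (p : ZMod r) := by
    intro B
    obtain ⟨r, h1, h2, h3, h4, -, h6⟩ := Q283.XF.exists_prime_sym hbase 3 (by norm_num)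
      (fun _ => True) (B + ∑ q ∈ Q, q + 7)
    have : Fact r.Prime := ⟨h2⟩
    refine ⟨r, by omega, ⟨h2, h3, ?_⟩, ?_, fun p hp =>
      (h6 p (Finset.mem_union_right _ hp)).2 trivial⟩
    · rw [Pool.Agent.Y687.sq_seven r h3 (by omega)]
      have h5 : r % 7 = 3 := h4
      omega
    · rintro q hq rfl
      have := Finset.single_le_sum (f := fun q : ℕ => q) (fun _ _ => Nat.zero_le _) hq
      omega
  obtain ⟨r, -, hr1, hr2, hr3⟩ := hex 0
  obtain ⟨r', hr0', hr1', hr2', hr3'⟩ := hex r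
  obtain ⟨hf, hd⟩ := desc_r (fun q hq => ⟨hQ q hq, hr2 q hq⟩) hP hj hdet hr1 hr3
  obtain ⟨-, hd'⟩ := desc_r (fun q hq => ⟨hQ q hq, hr2' q hq⟩) hP hj hdet hr1' hr3'
  have hDZ : ((1 + 4 * j : ℕ) : ℤ) ≠ 0 := by
    rw [Nat.cast_ne_zero]
    omega
  refine ⟨hf, fun x hx => ?_⟩
  induction x using QuotientAddGroup.induction_on with
  | H f =>
    have h1 : IsCob _ (f.1 + f.1) := by
      have h2 : (QuotientAddGroup.mk (f + f) : Pool.Agent.TH841.SH.D.shaCoc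
          (WF ℚ (21 * ((1 + 4 * j : ℕ) : ℤ)) (112 * ((1 + 4 * j : ℕ) : ℤ) ^ 2)) ⧸
          (cob (WF ℚ (21 * ((1 + 4 * j : ℕ) : ℤ)) (112 * ((1 + 4 * j : ℕ) : ℤ) ^ 2))).addSubgroupOf
            (Pool.Agent.TH841.SH.D.shaCoc _)) = 0 := hx
      rw [QuotientAddGroup.eq_zero_iff, AddSubgroup.mem_addSubgroupOf] at h2
      exact h2
    have h3 : IsCob _ f.1 := by
      rcases hd f.1 f.2 h1 with h4 | h4
      · exact h4
      rcases hd' f.1 f.2 h1 with h5 | h5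
      · exact h5
      exfalso
      have h6 : IsCob (WF ℚ (21 * ((1 + 4 * j : ℕ) : ℤ)) (112 * ((1 + 4 * j : ℕ) : ℤ) ^ 2))
          (coc ℚ (hb_ne j) ((r : ℤ) * r')) := by
        rw [← coc_sub (hb_ne j) (r : ℤ) r' (by exact_mod_cast hr1.pr.ne_zero)
          (by exact_mod_cast hr1'.pr.ne_zero)]
        have h7 := Pool.Agent.TH841.SH.D.cob_add h5 (Pool.Agent.TH841.SH.D.cob_neg h4)
        have e : f.1 - coc ℚ (hb_ne j) (r' : ℤ) + -(f.1 - coc ℚ (hb_ne j) (r : ℤ)) =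
            coc ℚ (hb_ne j) (r : ℤ) - coc ℚ (hb_ne j) (r' : ℤ) := by abel
        rw [e] at h7
        exact h7
      have hrr : ((r : ℤ) * r') ≠ 0 := mul_ne_zero (by exact_mod_cast hr1.pr.ne_zero)
        (by exact_mod_cast hr1'.pr.ne_zero)
      have n1 : ¬ IsSquare (((r : ℤ) * r' : ℤ) : ℚ) := by
        intro h
        have h8 : IsSquare ((r * r' : ℕ) : ℚ) := by
          push_cast at h ⊢
          exact h
        rw [Rat.isSquare_natCast_iff] at h8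
        obtain ⟨m, hm⟩ := h8
        have h9 : r ∣ m := by
          have : r ∣ m * m := ⟨r', hm.symm⟩
          rcases (hr1.pr.dvd_mul).1 this with h | h <;> exact h
        obtain ⟨k, rfl⟩ := h9
        have h10 : r' = r * (k * k) := by
          have : r * r' = r * (r * (k * k)) := by rw [hm]; ring
          exact Nat.eq_of_mul_eq_mul_left hr1.pr.pos this
        have h11 : r ∣ r' := ⟨_, h10⟩
        have := (Nat.prime_dvd_prime_iff_eq hr1.pr hr1'.pr).1 h11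
        omega
      have n2 : ¬ IsSquare ((((r : ℤ) * r' : ℤ) : ℚ) * (((21 * ((1 + 4 * j : ℕ) : ℤ) : ℤ) : ℚ) ^ 2 -
          4 * ((112 * ((1 + 4 * j : ℕ) : ℤ) ^ 2 : ℤ) : ℚ))) := by
        intro h
        have h8 := h.nonneg
        have e : (((r : ℤ) * r' : ℤ) : ℚ) * (((21 * ((1 + 4 * j : ℕ) : ℤ) : ℤ) : ℚ) ^ 2 -
          4 * ((112 * ((1 + 4 * j : ℕ) : ℤ) ^ 2 : ℤ) : ℚ)) =
          -(7 * (r : ℚ) * r' * (1 + 4 * (j : ℚ)) ^ 2) := by push_cast; ring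
        rw [e] at h8
        have h9 : (0 : ℚ) < 7 * (r : ℚ) * r' * (1 + 4 * (j : ℚ)) ^ 2 := by
          have h10 : (0 : ℚ) < r := by exact_mod_cast hr1.pr.pos
          have h11 : (0 : ℚ) < r' := by exact_mod_cast hr1'.pr.pos
          positivity
        linarith
      have nb : ¬ IsSquare (((112 * ((1 + 4 * j : ℕ) : ℤ) ^ 2 : ℤ) : ℚ)) := by
        rintro ⟨s, hs⟩
        have h8 : IsSquare ((7 : ℕ) : ℚ) := by
          refine ⟨s / (4 * (1 + 4 * (j : ℚ))), ?_⟩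
          have : (1 + 4 * (j : ℚ)) ≠ 0 := by positivity
          push_cast at hs ⊢
          field_simp
          linear_combination hs
        rw [Rat.isSquare_natCast_iff] at h8
        obtain ⟨m, hm⟩ := h8
        have : m ≤ 2 := by nlinarith
        interval_cases m <;> omega
      have nab : ¬ IsSquare (((21 * ((1 + 4 * j : ℕ) : ℤ) : ℤ) : ℚ) ^ 2 -
          4 * ((112 * ((1 + 4 * j : ℕ) : ℤ) ^ 2 : ℤ) : ℚ)) := by
        intro h
        have h8 := h.nonneg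
        have e : (((21 * ((1 + 4 * j : ℕ) : ℤ) : ℤ) : ℚ) ^ 2 -
          4 * ((112 * ((1 + 4 * j : ℕ) : ℤ) ^ 2 : ℤ) : ℚ)) =
          -(7 * (1 + 4 * (j : ℚ)) ^ 2) := by push_cast; ring
        rw [e] at h8
        have h9 : (0 : ℚ) < 7 * (1 + 4 * (j : ℚ)) ^ 2 := by positivity
        linarith
      rcases Pool.Agent.Y945.SG.t_COB ℚ _ _ (hb_ne j) _ (hab_ne j) hrr h6 with h | h | h
      · exact n1 h
      · exact n2 h
      · rcases Pool.Agent.Y542.SGT.t_TOR ℚ _ _ _ (hb_ne j) (hab_ne j) nb nab hf h with h | h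
        · exact n1 h
        · exact n2 h
    have h4 : (QuotientAddGroup.mk f : Pool.Agent.TH841.SH.D.shaCoc
          (WF ℚ (21 * ((1 + 4 * j : ℕ) : ℤ)) (112 * ((1 + 4 * j : ℕ) : ℤ) ^ 2)) ⧸
          (cob (WF ℚ (21 * ((1 + 4 * j : ℕ) : ℤ)) (112 * ((1 + 4 * j : ℕ) : ℤ) ^ 2))).addSubgroupOf
            (Pool.Agent.TH841.SH.D.shaCoc _)) = 0 := by
      rw [QuotientAddGroup.eq_zero_iff, AddSubgroup.mem_addSubgroupOf]
      exact h3
    exact h4

end Q283.J2
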